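import Pool.Agent.H97.LM.Red

/-!
# Alternating grammars of the leftmost shape, and real-time alternating pushdown devices as such grammars
-/

set_option autoImplicit false
set_option linter.unusedVariables false

namespace Pool.Agent.H97.LM

/-- real-time alternating pushdown device -/
structure ARP (Q X T : Type) where
  univ : Q → Prop
  step : Q → Set (Q × Option X)
  pop : Q → X → Set (T × Q)
  fin : Q → Set T
  uni : ∀ q, univ q → fin q = ∅ ∧ ∀ Y, pop q Y = ∅
  start : Q

variable {Q X T : Type}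

/-- acceptance with height at most `h` -/
def RN (P : ARP Q X T) : ℕ → List T → Q → List X → Prop
  | 0, _, _, _ => False
  | h + 1, z, q, δ =>
      (¬ P.univ q ∧ ((∃ q' o, (q', o) ∈ P.step q ∧ RN P h z q' (o.toList ++ δ)) ∨
        (∃ Y δ' a z' q', δ = Y :: δ' ∧ z = a :: z' ∧ (a, q') ∈ P.pop q Y ∧ RN P h z' q' δ') ∨
        (∃ a ∈ P.fin q, z = [a] ∧ δ = []))) ∨
      (P.univ q ∧ (P.step q).Nonempty ∧ ∀ q' o, (q', o) ∈ P.step q → RN P h z q' (o.toList ++ δ))

theorem RN_succ (P : ARP Q X T) : ∀ (h : ℕ) (z : List T) (q : Q) (δ : List X), RN P h z q δ → RN P (h + 1) z q δ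
  | 0, _, _, _ => fun H => H.elim
  | h + 1, z, q, δ => fun H => by
      rcases H with ⟨h1, h2⟩ | ⟨h1, h2, h3⟩
      · refine Or.inl ⟨h1, ?_⟩
        rcases h2 with ⟨q', o, h2, h3⟩ | ⟨Y, δ', a, z', q', h2, h3, h4, h5⟩ | h2
        · exact Or.inl ⟨q', o, h2, RN_succ P h _ _ _ h3⟩
        · exact Or.inr (Or.inl ⟨Y, δ', a, z', q', h2, h3, h4, RN_succ P h _ _ _ h5⟩)
        · exact Or.inr (Or.inr h2)
      · exact Or.inr ⟨h1, h2, fun q' o hq => RN_succ P h _ _ _ (h3 q' o hq)⟩

theorem RN_mono (P : ARP Q X T) {h h' : ℕ} (hh : h ≤ h') {z : List T} {q : Q} {δ : List X} (H : RN P h z q δ) :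
    RN P h' z q δ := by
  induction hh with
  | refl => exact H
  | step _ ih => exact RN_succ P _ _ _ _ ih

/-- the form of a configuration -/
def frm (y : List T) (q : Q) (δ : List X) : List ((Q ⊕ X) ⊕ T) :=
  y.map Sum.inr ++ Sum.inl (Sum.inl q) :: δ.map (fun Y => Sum.inl (Sum.inr Y))

/-- the set of productions of a device -/
def rset (P : ARP Q X T) : Set ((Q ⊕ X) × List ((Q ⊕ X) ⊕ T) × List ((Q ⊕ X) ⊕ T)) :=
  {r | (∃ q q' o, (q', o) ∈ P.step q ∧
        r = (Sum.inl q, [], Sum.inl (Sum.inl q') :: (o : Option X).toList.map (fun Y => Sum.inl (Sum.inr Y)))) ∨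
    (∃ q Y a q', (a, q') ∈ P.pop q Y ∧ r = (Sum.inl q, [Sum.inl (Sum.inr Y)], [Sum.inr a, Sum.inl (Sum.inl q')])) ∨
    (∃ q a, a ∈ P.fin q ∧ r = (Sum.inl q, [], [Sum.inr a]))}

theorem rset_finite [Finite Q] [Finite X] [Finite T] (P : ARP Q X T) : (rset P).Finite := by
  have h1 : (Set.range fun p : Q × Q × Option X => ((Sum.inl p.1, [],
      Sum.inl (Sum.inl p.2.1) :: p.2.2.toList.map (fun Y => Sum.inl (Sum.inr Y))) :
      (Q ⊕ X) × List ((Q ⊕ X) ⊕ T) × List ((Q ⊕ X) ⊕ T))).Finite := Set.finite_range _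
  have h2 : (Set.range fun p : Q × X × T × Q => ((Sum.inl p.1, [Sum.inl (Sum.inr p.2.1)],
      [Sum.inr p.2.2.1, Sum.inl (Sum.inl p.2.2.2)]) :
      (Q ⊕ X) × List ((Q ⊕ X) ⊕ T) × List ((Q ⊕ X) ⊕ T))).Finite := Set.finite_range _
  have h3 : (Set.range fun p : Q × T => ((Sum.inl p.1, [], [Sum.inr p.2]) :
      (Q ⊕ X) × List ((Q ⊕ X) ⊕ T) × List ((Q ⊕ X) ⊕ T))).Finite := Set.finite_range _
  refine ((h1.union h2).union h3).subset ?_
  rintro r (⟨q, q', o, _, rfl⟩ | ⟨q, Y, a, q', _, rfl⟩ | ⟨q, a, _, rfl⟩)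
  · exact Or.inl (Or.inl ⟨(q, q', o), rfl⟩)
  · exact Or.inl (Or.inr ⟨(q, Y, a, q'), rfl⟩)
  · exact Or.inr ⟨(q, a), rfl⟩

open Classical in
/-- the grammar of a device -/
noncomputable def gram [Finite Q] [Finite X] [Finite T] (P : ARP Q X T) : APSG (Q ⊕ X) T where
  univ := fun A => ∃ q, A = Sum.inl q ∧ P.univ q
  rules := (rset_finite P).toFinset
  start := Sum.inl P.start

variable [Finite Q] [Finite X] [Finite T]

theorem gram_mono (P : ARP Q X T) : (gram P).Mono := by
  intro A α β h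
  have h : (A, α, β) ∈ rset P := by simpa [gram] using h
  rcases h with ⟨q, q', o, _, h⟩ | ⟨q, Y, a, q', _, h⟩ | ⟨q, a, _, h⟩ <;>
    (simp only [Prod.mk.injEq] at h; obtain ⟨_, rfl, rfl⟩ := h; simp)

theorem gram_univ (P : ARP Q X T) (q : Q) : (gram P).univ (Sum.inl q) ↔ P.univ q := by
  simp [gram]

theorem RN_der (P : ARP Q X T) : ∀ (h : ℕ) (y z : List T) (q : Q) (δ : List X), RN P h z q δ →
    DerL (gram P) (y ++ z) (frm y q δ)
  | 0, _, _, _, _ => fun H => H.elim
  | h + 1, y, z, q, δ => fun H => by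
      rcases H with ⟨h1, h2⟩ | ⟨h1, h2, h3⟩
      · rcases h2 with ⟨q', o, h2, h3⟩ | ⟨Y, δ', a, z', q', rfl, rfl, h4, h5⟩ | ⟨a, h2, rfl, rfl⟩
        · have h4 := RN_der P h y z q' _ h3
          have h5 := DerL.ex (G := gram P) (w := y ++ z) y (Sum.inl q) []
            (Sum.inl (Sum.inl q') :: o.toList.map (fun Y => Sum.inl (Sum.inr Y))) (δ.map fun Y => Sum.inl (Sum.inr Y))
            (by rwa [gram_univ]) (by simp only [gram, Set.Finite.mem_toFinset]; exact Or.inl ⟨q, q', o, h2, rfl⟩)
            (by simpa [frm] using h4)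
          simpa [frm] using h5
        · have h6 := RN_der P h (y ++ [a]) z' q' _ h5
          have h7 := DerL.ex (G := gram P) (w := y ++ a :: z') y (Sum.inl q) [Sum.inl (Sum.inr Y)]
            [Sum.inr a, Sum.inl (Sum.inl q')] (δ'.map fun Y => Sum.inl (Sum.inr Y))
            (by rwa [gram_univ])
            (by simp only [gram, Set.Finite.mem_toFinset]; exact Or.inr (Or.inl ⟨q, Y, a, q', h4, rfl⟩))
            (by simpa [frm] using h6)
          simpa [frm] using h7
        · have h7 := DerL.ex (G := gram P) (w := y ++ [a]) y (Sum.inl q) [] [Sum.inr a] []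
            (by rwa [gram_univ])
            (by simp only [gram, Set.Finite.mem_toFinset]; exact Or.inr (Or.inr ⟨q, a, h2, rfl⟩))
            (by simpa using DerL.leaf (G := gram P) (w := y ++ [a]))
          simpa [frm] using h7
      · have hu := P.uni q h1
        have h5 := DerL.all (G := gram P) (w := y ++ z) y (Sum.inl q) [] (δ.map fun Y => Sum.inl (Sum.inr Y))
          (by rwa [gram_univ])
          (by
            obtain ⟨⟨q', o⟩, h4⟩ := h2
            exact ⟨_, by simp only [gram, Set.Finite.mem_toFinset]; exact Or.inl ⟨q, q', o, h4, rfl⟩⟩)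
          (by
            intro β hβ
            have hβ : (Sum.inl q, [], β) ∈ rset P := by simpa [gram] using hβ
            rcases hβ with ⟨q1, q', o, h4, h⟩ | ⟨q1, Y, a, q', _, h⟩ | ⟨q1, a, h4, h⟩
            · simp only [Prod.mk.injEq, Sum.inl.injEq, true_and] at h
              obtain ⟨rfl, rfl⟩ := h
              have h6 := RN_der P h y z q' _ (h3 q' o h4)
              simpa [frm] using h6
            · simp at h
            · simp only [Prod.mk.injEq, Sum.inl.injEq, true_and] at h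
              obtain ⟨rfl, rfl⟩ := h
              rw [hu.1] at h4
              exact h4.elim)
        simpa [frm] using h5

theorem frm_inv {y γ : List T} {q : Q} {δ : List X} {A : Q ⊕ X} {ρ : List ((Q ⊕ X) ⊕ T)}
    (h : frm y q δ = γ.map Sum.inr ++ Sum.inl A :: ρ) :
    γ = y ∧ A = Sum.inl q ∧ ρ = δ.map (fun Y => Sum.inl (Sum.inr Y)) := by
  unfold frm at h
  obtain ⟨γ', h1, h2⟩ := dec_append y γ A _ ρ h
  rcases γ' with _ | ⟨b, γ'⟩
  · simp only [List.map_nil, List.nil_append, List.cons.injEq, Sum.inl.injEq] at h2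
    exact ⟨by simpa using h1, h2.1.symm, h2.2.symm⟩
  · simp at h2

theorem frm_not_term {y w : List T} {q : Q} {δ : List X} (h : w.map Sum.inr = frm y q δ) : False := by
  have : (Sum.inl (Sum.inl q) : (Q ⊕ X) ⊕ T) ∈ w.map Sum.inr := by rw [h]; simp [frm]
  simp at this

theorem term_der {G : APSG (Q ⊕ X) T} {w u : List T} (H : DerL G w (u.map Sum.inr)) : u = w := by
  generalize hf : (u.map Sum.inr : List ((Q ⊕ X) ⊕ T)) = f at H
  cases H with
  | leaf => exact (List.map_injective_iff.mpr Sum.inr_injective) hf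
  | ex γ A α β δ _ _ _ =>
      obtain ⟨γ', _, h4⟩ := dec_append u γ A [] (α ++ δ) (by simpa using hf)
      simp at h4
  | all γ A α δ _ _ _ =>
      obtain ⟨γ', _, h4⟩ := dec_append u γ A [] (α ++ δ) (by simpa using hf)
      simp at h4

theorem der_prefix {G : APSG (Q ⊕ X) T} {w : List T} {f : List ((Q ⊕ X) ⊕ T)} (H : DerL G w f) :
    ∀ (u : List T) (g : List ((Q ⊕ X) ⊕ T)), f = u.map Sum.inr ++ g → u <+: w := by
  induction H with
  | leaf =>
      intro u g h
      rw [List.map_eq_append_iff] at h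
      obtain ⟨l1, l2, h1, h2, _⟩ := h
      have h3 : l1 = u := (List.map_injective_iff.mpr Sum.inr_injective) h2
      exact ⟨l2, by rw [h1, h3]⟩
  | ex γ A α β δ _ _ _ ih =>
      intro u g h
      obtain ⟨γ', h3, _⟩ := dec_append u γ A g (α ++ δ) h.symm
      exact ih u (γ'.map Sum.inr ++ (β ++ δ)) (by rw [h3]; simp)
  | all γ A α δ _ hn _ ih =>
      intro u g h
      obtain ⟨γ', h3, _⟩ := dec_append u γ A g (α ++ δ) h.symm
      obtain ⟨β, hβ⟩ := hn
      exact ih β hβ u (γ'.map Sum.inr ++ (β ++ δ)) (by rw [h3]; simp)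

theorem der_RN (P : ARP Q X T) {w : List T} {f : List ((Q ⊕ X) ⊕ T)} (H : DerL (gram P) w f) :
    ∀ (y z : List T) (q : Q) (δ : List X), f = frm y q δ → w = y ++ z → ∃ h, RN P h z q δ := by
  induction H with
  | leaf =>
      intro y z q δ hf _
      exact (frm_not_term hf).elim
  | ex γ A α β ρ hA hr hd ih =>
      intro y z q δ hf hw
      obtain ⟨rfl, rfl, h1⟩ := frm_inv hf.symm
      have hr : (Sum.inl q, α, β) ∈ rset P := by simpa [gram] using hr
      rw [gram_univ] at hA
      rcases hr with ⟨q1, q', o, h4, h⟩ | ⟨q1, Y, a, q', h4, h⟩ | ⟨q1, a, h4, h⟩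
      · simp only [Prod.mk.injEq, Sum.inl.injEq] at h
        obtain ⟨rfl, rfl, rfl⟩ := h
        rw [List.nil_append] at h1
        obtain ⟨h, hh⟩ := ih γ z q' (o.toList ++ δ) (by rw [h1]; simp [frm]) hw
        exact ⟨h + 1, Or.inl ⟨hA, Or.inl ⟨q', o, h4, hh⟩⟩⟩
      · simp only [Prod.mk.injEq, Sum.inl.injEq] at h
        obtain ⟨rfl, rfl, rfl⟩ := h
        rcases δ with _ | ⟨Y', δ'⟩
        · simp at h1
        · simp only [List.cons_append, List.nil_append, List.map_cons, List.cons.injEq, Sum.inl.injEq, Sum.inr.injEq] at h1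
          obtain ⟨rfl, h1⟩ := h1
          have h5 : γ ++ [a] <+: w := der_prefix hd (γ ++ [a]) (Sum.inl (Sum.inl q') :: ρ) (by simp)
          rw [hw] at h5
          have h6 : ∃ z', z = a :: z' := by
            obtain ⟨s, hs⟩ := h5
            rw [List.append_assoc, List.append_cancel_left_eq] at hs
            exact ⟨s, hs.symm⟩
          obtain ⟨z', rfl⟩ := h6
          obtain ⟨h, hh⟩ := ih (γ ++ [a]) z' q' δ' (by rw [h1]; simp [frm]) (by rw [hw]; simp)
          exact ⟨h + 1, Or.inl ⟨hA, Or.inr (Or.inl ⟨Y, δ', a, z', q', rfl, rfl, h4, hh⟩)⟩⟩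
      · simp only [Prod.mk.injEq, Sum.inl.injEq] at h
        obtain ⟨rfl, rfl, rfl⟩ := h
        rw [List.nil_append] at h1
        rw [h1] at hd
        rcases δ with _ | ⟨Y', δ'⟩
        · have h5 := term_der (u := γ ++ [a]) (by simpa using hd)
          rw [hw, List.append_cancel_left_eq] at h5
          exact ⟨1, Or.inl ⟨hA, Or.inr (Or.inr ⟨a, h4, h5.symm, rfl⟩)⟩⟩
        · exfalso
          generalize hg : γ.map Sum.inr ++ ([Sum.inr a] ++ List.map (fun Y => Sum.inl (Sum.inr Y)) (Y' :: δ')) = g at hd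
          have hg' : (γ ++ [a]).map Sum.inr ++ Sum.inl (Sum.inr Y') :: List.map (fun Y => Sum.inl (Sum.inr Y)) δ' = g := by
            rw [← hg]; simp
          have key : ∀ g, DerL (gram P) w g →
              g = (γ ++ [a]).map Sum.inr ++ Sum.inl (Sum.inr Y') :: List.map (fun Y => Sum.inl (Sum.inr Y)) δ' → False := by
            intro g hd hg
            cases hd with
            | leaf =>
                have : (Sum.inl (Sum.inr Y') : (Q ⊕ X) ⊕ T) ∈ w.map Sum.inr := by rw [hg]; simp
                simp at this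
            | ex γ1 A1 α1 β1 ρ1 hA1 hr1 hd1 =>
                obtain ⟨γ', h6, h7⟩ := dec_append _ γ1 A1 _ _ hg.symm
                rcases γ' with _ | ⟨b, γ'⟩
                · simp only [List.map_nil, List.nil_append, List.cons.injEq, Sum.inl.injEq] at h7
                  have hr1 : (A1, α1, β1) ∈ rset P := by simpa [gram] using hr1
                  rw [← h7.1] at hr1
                  rcases hr1 with ⟨q1, q', o, _, h⟩ | ⟨q1, Y, a, q', _, h⟩ | ⟨q1, a, _, h⟩ <;> simp at h
                · simp at h7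
            | all γ1 A1 α1 ρ1 hA1 hr1 hd1 =>
                obtain ⟨γ', h6, h7⟩ := dec_append _ γ1 A1 _ _ hg.symm
                rcases γ' with _ | ⟨b, γ'⟩
                · simp only [List.map_nil, List.nil_append, List.cons.injEq, Sum.inl.injEq] at h7
                  obtain ⟨β1, hr1⟩ := hr1
                  have hr1 : (A1, α1, β1) ∈ rset P := by simpa [gram] using hr1
                  rw [← h7.1] at hr1
                  rcases hr1 with ⟨q1, q', o, _, h⟩ | ⟨q1, Y, a, q', _, h⟩ | ⟨q1, a, _, h⟩ <;> simp at h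
                · simp at h7
          exact key g hd hg'.symm
  | all γ A α ρ hA hn hd ih =>
      intro y z q δ hf hw
      obtain ⟨rfl, rfl, h1⟩ := frm_inv hf.symm
      rw [gram_univ] at hA
      have hu := P.uni q hA
      obtain ⟨β, hβ⟩ := hn
      have hβ : (Sum.inl q, α, β) ∈ rset P := by simpa [gram] using hβ
      have hα : α = [] := by
        rcases hβ with ⟨q1, q', o, h4, h⟩ | ⟨q1, Y, a, q', h4, h⟩ | ⟨q1, a, h4, h⟩
        · simp only [Prod.mk.injEq] at h
          exact h.2.1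
        · simp only [Prod.mk.injEq, Sum.inl.injEq] at h
          obtain ⟨rfl, _, _⟩ := h
          rw [hu.2] at h4
          exact h4.elim
        · simp only [Prod.mk.injEq] at h
          exact h.2.1
      subst hα
      rw [List.nil_append] at h1
      have hne : (P.step q).Nonempty := by
        rcases hβ with ⟨q1, q', o, h4, h⟩ | ⟨q1, Y, a, q', h4, h⟩ | ⟨q1, a, h4, h⟩
        · simp only [Prod.mk.injEq, Sum.inl.injEq] at h
          obtain ⟨rfl, _, _⟩ := h
          exact ⟨_, h4⟩
        · simp at h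
        · simp only [Prod.mk.injEq, Sum.inl.injEq] at h
          obtain ⟨rfl, _, _⟩ := h
          rw [hu.1] at h4
          exact h4.elim
      have hex : ∀ s : Q × Option X, s ∈ P.step q → ∃ h, RN P h z s.1 (s.2.toList ++ δ) := by
        rintro ⟨q', o⟩ hs
        exact ih (Sum.inl (Sum.inl q') :: o.toList.map (fun Y => Sum.inl (Sum.inr Y)))
          (by simp only [gram, Set.Finite.mem_toFinset]; exact Or.inl ⟨q, q', o, hs, rfl⟩) γ z q' (o.toList ++ δ)
          (by rw [h1]; simp [frm]) hw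
      choose! g hg using hex
      have hfin : (P.step q).Finite := Set.toFinite _
      obtain ⟨M, hM⟩ := (hfin.image g).bddAbove
      refine ⟨M + 1, Or.inr ⟨hA, hne, fun q' o hs => ?_⟩⟩
      exact RN_mono P (hM ⟨(q', o), hs, rfl⟩) (hg (q', o) hs)

end Pool.Agent.H97.LM
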