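import Pool.Agent.H97.LM.Fwd

/-! From certificates to acceptance by the device. -/

set_option autoImplicit false
set_option linter.unusedVariables false
set_option linter.unusedSectionVars false

namespace Pool.Agent.H97.LM

open St

section intro
variable {Q X T : Type} {P : ARP Q X T}

theorem ra_step {z : List T} {q q' : Q} {o : Option X} {δ : List X} (hu : ¬ P.univ q) (hq : (q', o) ∈ P.step q)
    (H : ∃ h, RN P h z q' (o.toList ++ δ)) : ∃ h, RN P h z q δ := by
  obtain ⟨h, hh⟩ := H
  exact ⟨h + 1, Or.inl ⟨hu, Or.inl ⟨q', o, hq, hh⟩⟩⟩

theorem ra_pop {z : List T} {q q' : Q} {a : T} {Y : X} {δ : List X} (hu : ¬ P.univ q) (hq : (a, q') ∈ P.pop q Y)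
    (H : ∃ h, RN P h z q' δ) : ∃ h, RN P h (a :: z) q (Y :: δ) := by
  obtain ⟨h, hh⟩ := H
  exact ⟨h + 1, Or.inl ⟨hu, Or.inr (Or.inl ⟨Y, δ, a, z, q', rfl, rfl, hq, hh⟩)⟩⟩

theorem ra_all [Finite Q] [Finite X] {z : List T} {q : Q} {δ : List X} (hu : P.univ q) (hne : (P.step q).Nonempty)
    (H : ∀ q' o, (q', o) ∈ P.step q → ∃ h, RN P h z q' (o.toList ++ δ)) : ∃ h, RN P h z q δ := by
  have hex : ∀ s : Q × Option X, s ∈ P.step q → ∃ h, RN P h z s.1 (s.2.toList ++ δ) := fun s hs => H s.1 s.2 hs
  choose! g hg using hex
  obtain ⟨M, hM⟩ := ((Set.toFinite (P.step q)).image g).bddAbove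
  exact ⟨M + 1, Or.inr ⟨hu, hne, fun q' o hs => RN_mono P (hM ⟨(q', o), hs, rfl⟩) (hg (q', o) hs)⟩⟩

end intro

variable {V T : Type} {G : ACFG V T} {L : ℕ}

theorem acc_bwd : ∀ (z : List (Option T)) (δ : List Cell), δ.length + 1 ≤ z.length → ∃ h, RN (dev G L) h z acc δ
  | [], δ => fun h => by simp at h
  | a :: z, [] => fun h => by
      rcases z with _ | ⟨b, z⟩
      · exact ⟨1, Or.inl ⟨by simp [dev, unv], Or.inr (Or.inr ⟨a, trivial, rfl, rfl⟩)⟩⟩
      · refine ra_step (P := dev G L) (q' := acc) (o := some (false, false, false, false)) (by simp [dev, unv])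
          (by simp [dev, stp]) ?_
        exact ra_pop (P := dev G L) (q' := acc) (by simp [dev, unv]) (by simp [dev, pp]) (acc_bwd (b :: z) [] (by simp))
  | a :: z, Y :: δ => fun h =>
      ra_pop (P := dev G L) (q' := acc) (by simp [dev, unv]) (by simp [dev, pp])
        (acc_bwd z δ (by simp only [List.length_cons] at h; omega))

theorem cpr_bwd {z : List (Option T)} {x : Cell} : ∀ (w : List T) (S : List Cell), S[w.length]? = some x →
    S.length ≤ w.length + z.length → ∃ h, RN (dev G L) h (w.map some ++ none :: z) (cpr x) S
  | [], [] => fun h1 _ => by simp at h1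
  | [], Y :: S => fun h1 h2 => by
      have : Y = x := by simpa using h1
      subst this
      exact ra_pop (P := dev G L) (q' := acc) (by simp [dev, unv]) (by simp [dev, pp])
        (acc_bwd z S (by simp only [List.length_cons, List.length_nil] at h2; omega))
  | b :: w, [] => fun h1 _ => by simp at h1
  | b :: w, Y :: S => fun h1 h2 =>
      ra_pop (P := dev G L) (q' := cpr x) (by simp [dev, unv]) (by simp [dev, pp])
        (cpr_bwd w S (by simpa using h1) (by simp only [List.length_cons] at h2; omega))

theorem len_bwd {z : List (Option T)} {x : Cell} (hx : x.1 = true) : ∀ (w : List T) (S : List Cell),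
    S[w.length]? = some x → (∀ j < w.length, ∃ Z, S[j]? = some Z ∧ Z.1 = false) →
    S.length ≤ w.length + z.length → ∃ h, RN (dev G L) h (w.map some ++ none :: z) len S
  | [], [] => fun h1 _ _ => by simp at h1
  | [], Y :: S => fun h1 _ h2 => by
      have : Y = x := by simpa using h1
      subst this
      exact ra_pop (P := dev G L) (q' := acc) (by simp [dev, unv]) (by simp [dev, pp, hx])
        (acc_bwd z S (by simp only [List.length_cons, List.length_nil] at h2; omega))
  | b :: w, [] => fun h1 _ _ => by simp at h1
  | b :: w, Y :: S => fun h1 h3 h2 => by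
      have hY : Y.1 = false := by
        obtain ⟨Z, h4, h5⟩ := h3 0 (by simp)
        have : Y = Z := by simpa using h4
        rw [this]; exact h5
      exact ra_pop (P := dev G L) (q' := len) (by simp [dev, unv]) (by simp [dev, pp, hY])
        (len_bwd hx w S (by simpa using h1) (fun j hj => by
          obtain ⟨Z, h4, h5⟩ := h3 (j + 1) (by simpa using hj)
          exact ⟨Z, by simpa using h4, h5⟩) (by simp only [List.length_cons] at h2; omega))

theorem chk_bwd {z : List (Option T)} {a : T} : ∀ (w : List T) (k : ℕ) (S : List Cell) (Y Y' : Cell),
    (∀ j < k, ∃ Z, S[j]? = some Z ∧ Z.2.2.1 = false) → S[k]? = some Y → Y.2.2.1 = true → w[k]? = some a →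
    S[k + 1]? = some Y' → Y'.2.1 = true → S.length ≤ w.length + z.length →
    ∃ h, RN (dev G L) h (w.map some ++ none :: z) (chk a) S
  | [], k, S, Y, Y' => fun _ _ _ h _ _ _ => by simp at h
  | b :: w, 0, S, Y, Y' => fun _ h1 h2 h3 h4 h5 h6 => by
      rcases S with _ | ⟨Y1, _ | ⟨Y2, S⟩⟩
      · simp at h1
      · simp at h4
      · have e1 : Y1 = Y := by simpa using h1
        have e2 : Y2 = Y' := by simpa using h4
        have e3 : b = a := by simpa using h3
        subst e1 e2 e3
        simp only [List.length_cons] at h6
        refine ra_pop (P := dev G L) (q' := chk1) (by simp [dev, unv]) (by simp [dev, pp, h2]) ?_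
        rcases w with _ | ⟨c, w⟩
        · simp only [List.length_nil] at h6
          exact ra_pop (P := dev G L) (q' := acc) (by simp [dev, unv]) (by simp [dev, pp, h5]) (acc_bwd z S (by omega))
        · simp only [List.length_cons] at h6
          exact ra_pop (P := dev G L) (q' := acc) (by simp [dev, unv]) (by simp [dev, pp, h5])
            (acc_bwd _ S (by simp; omega))
  | b :: w, k + 1, S, Y, Y' => fun h0 h1 h2 h3 h4 h5 h6 => by
      rcases S with _ | ⟨Z, S⟩
      · simp at h1
      · have hZ : Z.2.2.1 = false := by
          obtain ⟨Z', h7, h8⟩ := h0 0 (by omega)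
          have : Z = Z' := by simpa using h7
          rw [this]; exact h8
        simp only [List.length_cons] at h6
        exact ra_pop (P := dev G L) (q' := chk a) (by simp [dev, unv]) (by simp [dev, pp, hZ])
          (chk_bwd w k S Y Y' (fun j hj => by
            obtain ⟨Z', h7, h8⟩ := h0 (j + 1) (by omega)
            exact ⟨Z', by simpa using h7, h8⟩) (by simpa using h1) h2 (by simpa using h3) (by simpa using h4) h5 (by omega))

variable [Finite V] [Finite T]

theorem cell_bwd {w : List T} {z : List (Option T)} {f g : ℕ → Cell} {rest : List Cell} {t : Fin 3} {γ : Gam V T L}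
    {m b : Bool} {k : ℕ} (hk : k ≤ w.length) (hs : rest.length + 2 * (w.length + 1) ≤ w.length + z.length) {y : Cell}
    (hok : okc t (f k) y)
    (H1 : ∃ h, RN (dev G L) h (w.map some ++ none :: z) (nxt t γ m (upd t y b) y.2.2.2)
        (y :: (seg w.length g (k + 1) ++ (seg w.length f 0 ++ rest))))
    (H2 : t = 2 → m = false → (f k).2.1 = true →
        ∃ h, RN (dev G L) h (w.map some ++ none :: z) (nxt 2 γ true y.1 y.2.2.2)
          ((y.1, y.2.1, true, y.2.2.2) :: (seg w.length g (k + 1) ++ (seg w.length f 0 ++ rest)))) :
    ∃ h, RN (dev G L) h (w.map some ++ none :: z) (W t γ m b) (seg w.length g (k + 1) ++ (seg w.length f 0 ++ rest)) := by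
  refine ra_step (P := dev G L) (q' := C t γ m b (f k) y) (o := none) (by simp [dev, unv]) (by
    simp only [dev, stp, Set.mem_ofPred_eq]
    exact ⟨f k, y, hok, rfl⟩) ?_
  refine ra_all (P := dev G L) (by simp [dev, unv]) ⟨(cpr (f k), none), by simp [dev, stp]⟩ ?_
  intro q' o hq
  simp only [dev, stp, Set.mem_ofPred_eq, Prod.mk.injEq] at hq
  rcases hq with ⟨rfl, rfl⟩ | ⟨rfl, rfl⟩ | ⟨h1, h2, h3, rfl, rfl⟩
  · simp only [Option.toList_none, List.nil_append]
    refine cpr_bwd w _ ?_ ?_
    · rw [List.getElem?_append_right (by rw [seg_length]; omega), seg_length,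
        List.getElem?_append_left (by rw [seg_length]; omega), seg_getElem (by omega)]
      congr 2
      omega
    · simp only [List.length_append, seg_length]
      omega
  · simpa using H1
  · simpa using H2 h1 h2 h3

theorem write_bwd {w : List T} {z : List (Option T)} {f g : ℕ → Cell} {rest : List Cell} {t : Fin 3} {γ : Gam V T L} {i : ℕ}
    {m : Bool} (hm : t = 2 → m = true) (hz : ∀ l ≤ w.length, (f l).2.2.2 = decide (l = 0))
    (hi : t ≠ 2 → ∀ l ≤ w.length, (f l).2.2.1 = decide (l = i))
    (hs : rest.length + 2 * (w.length + 1) ≤ w.length + z.length) :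
    ∀ (k : ℕ), k ≤ w.length → (∀ l ≤ k, okc t (f l) (g l)) → ∀ (b : Bool),
      (∃ h, RN (dev G L) h (w.map some ++ none :: z)
        (if t = 2 then NB γ m b else NE γ (if i ≤ k then (g i).2.1 else b))
        (seg w.length g 0 ++ (seg w.length f 0 ++ rest))) →
      ∃ h, RN (dev G L) h (w.map some ++ none :: z) (W t γ m b)
        (seg w.length g (k + 1) ++ (seg w.length f 0 ++ rest)) := by
  have hyi : t ≠ 2 → ∀ l ≤ w.length, okc t (f l) (g l) → (g l).2.2.1 = decide (l = i) := by
    intro ht l hl hok
    rw [← hi ht l hl]
    rcases hok.2 with h1 | h1 | h1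
    · exact h1.2.2
    · exact h1.2.2
    · exact absurd h1.1 ht
  intro k
  induction k with
  | zero =>
      intro hk hok b H
      refine cell_bwd hk hs (hok 0 le_rfl) ?_ (fun h1 h2 _ => by rw [hm h1] at h2; exact absurd h2 (by decide))
      have hy : (g 0).2.2.2 = true := by rw [(hok 0 le_rfl).1, hz 0 hk]; simp
      rw [← List.cons_append, ← seg_cons hk, hy]
      by_cases ht : t = 2
      · simpa [nxt, upd, ht] using H
      · have h1 := hyi ht 0 hk (hok 0 le_rfl)
        rw [if_neg ht] at H
        have h2 : upd t (g 0) b = if i ≤ 0 then (g i).2.1 else b := by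
          unfold upd
          rw [if_neg ht, h1]
          by_cases h0 : i = 0
          · subst h0; simp
          · have : ¬ (0 = i) := fun h => h0 h.symm
            have h3 : ¬ i ≤ 0 := by omega
            simp [this, h3]
        simp only [nxt, if_true, if_neg ht, h2]
        exact H
  | succ k ih =>
      intro hk hok b H
      refine cell_bwd hk hs (hok (k + 1) le_rfl) ?_ (fun h1 h2 _ => by rw [hm h1] at h2; exact absurd h2 (by decide))
      have hy : (g (k + 1)).2.2.2 = false := by rw [(hok (k + 1) le_rfl).1, hz (k + 1) hk]; simp
      rw [← List.cons_append, ← seg_cons hk, hy]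
      simp only [nxt, Bool.false_eq_true, if_false]
      apply ih (by omega) (fun l hl => hok l (by omega))
      by_cases ht : t = 2
      · simpa [upd, ht] using H
      · have h1 := hyi ht (k + 1) hk (hok (k + 1) le_rfl)
        rw [if_neg ht] at H ⊢
        have h2 : (if i ≤ k then (g i).2.1 else upd t (g (k + 1)) b) = if i ≤ k + 1 then (g i).2.1 else b := by
          unfold upd
          rw [if_neg ht, h1]
          rcases lt_trichotomy i (k + 1) with h0 | h0 | h0
          · rw [if_pos (by omega), if_pos (by omega)]
          · subst h0; simp
          · have h3 : ¬ (k + 1 = i) := by omega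
            rw [if_neg (show ¬ i ≤ k by omega), if_neg (show ¬ i ≤ k + 1 by omega)]
            simp [h3]
        rw [h2]
        exact H

theorem mark_bwd {w : List T} {z : List (Option T)} {f : ℕ → Cell} {rest : List Cell} {γ : Gam V T L}
    (hz : ∀ l ≤ w.length, (f l).2.2.2 = decide (l = 0))
    (hs : rest.length + 2 * (w.length + 1) ≤ w.length + z.length) :
    ∀ (k : ℕ), k ≤ w.length → ∀ (b : Bool),
      (∀ j ≤ k, (f j).2.1 = true → ∃ h, RN (dev G L) h (w.map some ++ none :: z) (NB γ true (f j).1)
        (seg w.length (fun l => ((f l).1, false, decide (l = j), (f l).2.2.2)) 0 ++ (seg w.length f 0 ++ rest))) →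
      ∃ h, RN (dev G L) h (w.map some ++ none :: z) (W 2 γ false b)
        (seg w.length (fun l => ((f l).1, false, false, (f l).2.2.2)) (k + 1) ++ (seg w.length f 0 ++ rest)) := by
  have hcg : ∀ k, seg w.length (fun l => ((f l).1, false, false, (f l).2.2.2)) (k + 1) =
      seg w.length (fun l => ((f l).1, false, decide (l = k), (f l).2.2.2)) (k + 1) := by
    intro k
    apply seg_congr
    intro l hl _
    have : ¬ l = k := by omega
    simp [this]
  intro k
  induction k with
  | zero =>
      intro hk b H
      have hf0 : (f 0).2.2.2 = true := by rw [hz 0 hk]; simp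
      refine cell_bwd (y := ((f 0).1, false, false, (f 0).2.2.2)) hk hs ⟨rfl, Or.inr (Or.inr ⟨rfl, rfl, rfl, rfl⟩)⟩ ?_ ?_
      · simp only [hf0, nxt, if_true, upd]
        refine ra_step (P := dev G L) (q' := acc) (o := none) (by simp [dev, unv]) (by simp [dev, stp]) ?_
        refine acc_bwd _ _ ?_
        simp only [Option.toList_none, List.nil_append, List.length_cons, List.length_append, seg_length, List.length_map]
        omega
      · intro _ _ hu
        have h1 := H 0 le_rfl hu
        rw [seg_cons hk, ← hcg 0] at h1
        simpa [nxt, hf0] using h1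
  | succ k ih =>
      intro hk b H
      have hf0 : (f (k + 1)).2.2.2 = false := by rw [hz (k + 1) hk]; simp
      refine cell_bwd (y := ((f (k + 1)).1, false, false, (f (k + 1)).2.2.2)) hk hs
        ⟨rfl, Or.inr (Or.inr ⟨rfl, rfl, rfl, rfl⟩)⟩ ?_ ?_
      · have h1 := ih (by omega) b (fun j hj hu => H j (by omega) hu)
        rw [seg_cons hk] at h1
        simpa [nxt, hf0, upd] using h1
      · intro _ _ hu
        have h1 := H (k + 1) le_rfl hu
        have h2 := write_bwd (g := fun l => ((f l).1, false, decide (l = k + 1), (f l).2.2.2)) (t := 2) (γ := γ) (i := 0)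
          (m := true) (fun _ => rfl) hz (fun h => absurd rfl h) hs k (by omega) (by
            intro l hl
            have : ¬ l = k + 1 := by omega
            exact ⟨rfl, Or.inr (Or.inr ⟨rfl, rfl, rfl, by simp [this]⟩)⟩) (f (k + 1)).1 (by simpa using h1)
        rw [seg_cons hk, ← hcg (k + 1)] at h2
        simpa [nxt, hf0] using h2

/-- what the set `u` of exits has to satisfy -/
def Cond (G : ACFG V T) (w : List T) (m : ℕ) (X : V ⊕ T) (i : ℕ) (v u : Finset ℕ) (γ : List (V ⊕ T)) : Prop :=
  (∀ B, X = Sum.inl B → Cert G w m B i u) ∧ (∀ a, X = Sum.inr a → w[i]? = some a ∧ i + 1 ∈ u) ∧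
  ∀ j ≤ w.length, j ∈ u → Str (Cert G w m) w γ j v

theorem cond_of_Str {w : List T} {m : ℕ} {X : V ⊕ T} {i : ℕ} {v : Finset ℕ} {γ : List (V ⊕ T)}
    (H : Str (Cert G w m) w (X :: γ) i v) : ∃ u, Cond G w m X i v u γ := by
  rcases X with B | a
  · obtain ⟨u, _, h1, h2⟩ := H
    exact ⟨u, (by intro B' hB; cases hB; exact h1), (by intro a ha; cases ha), fun j _ hj => h2 j hj⟩
  · refine ⟨{i + 1}, (by intro B hB; cases hB), (by intro a' ha; cases ha; exact ⟨H.1, Finset.mem_singleton_self _⟩), ?_⟩
    intro j _ hj
    rw [Finset.mem_singleton] at hj
    subst hj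
    exact H.2

/-- writing a block over an old one, then the next position of the game -/
theorem fw_bwd {w : List T} {z : List (Option T)} {m : ℕ} {X : V ⊕ T} {γ' : List (V ⊕ T)}
    (HN : ∀ (γ : Gam V T L) (i : ℕ) (v u : Finset ℕ) (rest : List Cell), γ.1 = X :: γ' → i ≤ w.length →
      Cond G w m X i v u γ' →
      rest.length + (w.length + 1) * (2 * (γ'.length + 1) + 2 * L * m) ≤ w.length + z.length →
      ∃ h, RN (dev G L) h (w.map some ++ none :: z) (NE γ (decide (i ∈ u))) (seg w.length (cel v u i) 0 ++ rest))
    {γ : Gam V T L} (hγ : γ.1 = X :: γ') {i : ℕ} (hi : i ≤ w.length) {v : Finset ℕ}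
    (HS : Str (Cert G w m) w (X :: γ') i v) {t : Fin 3} (ht : t ≠ 2) {f : ℕ → Cell} {rest : List Cell}
    (hf : ∀ l ≤ w.length, (f l).2.2.1 = decide (l = i) ∧ (f l).2.2.2 = decide (l = 0) ∧
      (t = 0 → (f l).1 = decide (l ∈ v)) ∧ (t = 1 → (f l).2.1 = decide (l ∈ v)))
    (hs : (w.length + 1 + rest.length) + (w.length + 1) * (2 * (γ'.length + 1) + 2 * L * m) ≤ w.length + z.length) :
    ∃ h, RN (dev G L) h (w.map some ++ none :: z) (W t γ false false) (seg w.length f 0 ++ rest) := by
  obtain ⟨u, hu⟩ := cond_of_Str HS
  have hs1 : (w.length + 1) * 2 ≤ (w.length + 1) * (2 * (γ'.length + 1) + 2 * L * m) :=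
    Nat.mul_le_mul_left _ (by omega)
  have h1 := HN γ i v u (seg w.length f 0 ++ rest) hγ hi hu (by
    simp only [List.length_append, seg_length]
    omega)
  have h2 := write_bwd (G := G) (w := w) (z := z) (g := cel v u i) (f := f) (rest := rest) (t := t) (γ := γ) (i := i) (m := false)
    (fun h => absurd h ht) (fun l hl => (hf l hl).2.1) (fun _ l hl => (hf l hl).1) (by omega) w.length le_rfl (by
      intro l hl
      have h3 := hf l hl
      refine ⟨by rw [h3.2.1]; rfl, ?_⟩
      have ht' : t = 0 ∨ t = 1 := by omega
      rcases ht' with rfl | rfl
      · exact Or.inl ⟨rfl, by rw [h3.2.2.1 rfl]; rfl, by rw [h3.1]; rfl⟩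
      · exact Or.inr (Or.inl ⟨rfl, by rw [h3.2.2.2 rfl]; rfl, by rw [h3.1]; rfl⟩)) false (by
      rw [if_neg ht, if_pos hi]
      exact h1)
  rw [seg_nil] at h2
  simpa using h2

theorem ne_bwd (hL : ∀ B, ∀ r ∈ G.prod B, r.length ≤ L) {w : List T} {z : List (Option T)} : ∀ (m : ℕ)
    (γ' : List (V ⊕ T)) (X : V ⊕ T) (γ : Gam V T L) (i : ℕ) (v u : Finset ℕ) (rest : List Cell), γ.1 = X :: γ' →
    i ≤ w.length → Cond G w m X i v u γ' →
    rest.length + (w.length + 1) * (2 * (γ'.length + 1) + 2 * L * m) ≤ w.length + z.length →
    ∃ h, RN (dev G L) h (w.map some ++ none :: z) (NE γ (decide (i ∈ u))) (seg w.length (cel v u i) 0 ++ rest) := by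
  intro m
  induction m with
  | zero =>
      intro γ'
      induction γ' with
      | nil =>
          intro X γ i v u rest hγ hi hc hs
          rcases X with B | a
          · exact (hc.1 B rfl).elim
          · have hc1 := hc.2.1 a rfl
            have hin : i < w.length := by
              have := hc1.1
              rw [List.getElem?_eq_some_iff] at this
              exact this.1
            simp only [List.length_nil, Nat.zero_add, Nat.mul_one, Nat.mul_zero, Nat.add_zero] at hs
            refine ra_all (P := dev G L) (by simp [dev, unv]) ⟨(W 2 ⟨[], Nat.zero_le _⟩ false false, none), by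
              simp only [dev, stp, Set.mem_ofPred_eq]
              exact ⟨Sum.inr a, ⟨[], Nat.zero_le _⟩, hγ, Or.inr rfl⟩⟩ ?_
            intro q' o hq
            simp only [dev, stp, Set.mem_ofPred_eq] at hq
            obtain ⟨X1, γ1, h1, h2⟩ := hq
            rw [hγ, List.cons.injEq] at h1
            obtain ⟨rfl, h1⟩ := h1
            rcases h2 with h2 | h2
            · simp only [Prod.mk.injEq] at h2
              obtain ⟨rfl, rfl⟩ := h2
              simp only [alp, Option.toList_none, List.nil_append]
              refine chk_bwd w i _ (cel v u i i) (cel v u i (i + 1)) ?_ ?_ (by simp [cel]) hc1.1 ?_ (by simp [cel, hc1.2]) ?_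
              · intro j hj
                refine ⟨cel v u i j, ?_, ?_⟩
                · rw [List.getElem?_append_left (by rw [seg_length]; omega), seg_getElem (by omega), Nat.zero_add]
                · have : ¬ j = i := by omega
                  simp [cel, this]
              · rw [List.getElem?_append_left (by rw [seg_length]; omega), seg_getElem (by omega), Nat.zero_add]
              · rw [List.getElem?_append_left (by rw [seg_length]; omega), seg_getElem (by omega), Nat.zero_add]
              · simp only [List.length_append, seg_length]
                omega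
            · simp only [Prod.mk.injEq] at h2
              obtain ⟨rfl, rfl⟩ := h2
              simp only [Option.toList_none, List.nil_append]
              have h3 := mark_bwd (G := G) (f := cel v u i) (rest := rest) (γ := γ1) (w := w) (z := z) (fun l _ => rfl)
                (by omega) w.length le_rfl false (by
                  intro j hj hju
                  have hju' : j ∈ u := by simpa [cel] using hju
                  have hjv : j ∈ v := hc.2.2 j hj hju'
                  refine ra_step (P := dev G L) (q' := acc) (o := none) (by simp [dev, unv]) (by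
                    simp [dev, stp, ← h1, cel, hjv]) ?_
                  refine acc_bwd _ _ ?_
                  simp only [Option.toList_none, List.nil_append, List.length_append, seg_length, List.length_cons,
                    List.length_map]
                  omega)
              rw [seg_nil] at h3
              simpa using h3
      | cons X2 γ2 ih =>
          intro X γ i v u rest hγ hi hc hs
          rcases X with B | a
          · exact (hc.1 B rfl).elim
          · have hc1 := hc.2.1 a rfl
            have hin : i < w.length := by
              have := hc1.1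
              rw [List.getElem?_eq_some_iff] at this
              exact this.1
            have hs1 : (w.length + 1) * (2 * ((X2 :: γ2).length + 1) + 2 * L * 0) =
                (w.length + 1) * (2 * (γ2.length + 1) + 2 * L * 0) + 2 * (w.length + 1) := by
              simp only [List.length_cons]; ring
            have hs2 : (w.length + 1) * 2 ≤ (w.length + 1) * (2 * (γ2.length + 1) + 2 * L * 0) :=
              Nat.mul_le_mul_left _ (by omega)
            have hlen : (X2 :: γ2).length ≤ L := by
              have := γ.2
              rw [hγ, List.length_cons] at this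
              omega
            refine ra_all (P := dev G L) (by simp [dev, unv]) ⟨(W 2 ⟨X2 :: γ2, hlen⟩ false false, none), by
              simp only [dev, stp, Set.mem_ofPred_eq]
              exact ⟨Sum.inr a, ⟨X2 :: γ2, hlen⟩, hγ, Or.inr rfl⟩⟩ ?_
            intro q' o hq
            simp only [dev, stp, Set.mem_ofPred_eq] at hq
            obtain ⟨X1, γ1, h1, h2⟩ := hq
            rw [hγ, List.cons.injEq] at h1
            obtain ⟨rfl, h1⟩ := h1
            rcases h2 with h2 | h2
            · simp only [Prod.mk.injEq] at h2
              obtain ⟨rfl, rfl⟩ := h2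
              simp only [alp, Option.toList_none, List.nil_append]
              refine chk_bwd w i _ (cel v u i i) (cel v u i (i + 1)) ?_ ?_ (by simp [cel]) hc1.1 ?_ (by simp [cel, hc1.2]) ?_
              · intro j hj
                refine ⟨cel v u i j, ?_, ?_⟩
                · rw [List.getElem?_append_left (by rw [seg_length]; omega), seg_getElem (by omega), Nat.zero_add]
                · have : ¬ j = i := by omega
                  simp [cel, this]
              · rw [List.getElem?_append_left (by rw [seg_length]; omega), seg_getElem (by omega), Nat.zero_add]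
              · rw [List.getElem?_append_left (by rw [seg_length]; omega), seg_getElem (by omega), Nat.zero_add]
              · simp only [List.length_append, seg_length]
                omega
            · simp only [Prod.mk.injEq] at h2
              obtain ⟨rfl, rfl⟩ := h2
              simp only [Option.toList_none, List.nil_append]
              have h3 := mark_bwd (G := G) (f := cel v u i) (rest := rest) (γ := γ1) (w := w) (z := z) (fun l _ => rfl)
                (by omega) w.length le_rfl false (by
                  intro j hj hju
                  have hju' : j ∈ u := by simpa [cel] using hju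
                  have hjS := hc.2.2 j hj hju'
                  refine ra_step (P := dev G L) (q' := W 0 γ1 false false) (o := none) (by simp [dev, unv]) (by
                    simp [dev, stp, ← h1]) ?_
                  simp only [Option.toList_none, List.nil_append]
                  refine fw_bwd (fun γ i v u rest h4 h5 h6 h7 => ih X2 γ i v u rest h4 h5 h6 h7) (γ := γ1) h1.symm hj hjS
                    (t := 0) (by decide) (by
                      intro l hl
                      exact ⟨rfl, rfl, fun _ => rfl, fun h => absurd h (by decide)⟩) ?_
                  simp only [List.length_append, seg_length]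
                  omega)
              rw [seg_nil] at h3
              simpa using h3
  | succ m IH =>
      have hA : ∀ (B : V) (i : ℕ) (v u : Finset ℕ) (rest : List Cell), i ≤ w.length → Cert G w (m + 1) B i u →
          rest.length + (w.length + 1) * (1 + 2 * L * (m + 1)) ≤ w.length + z.length →
          rest.length + 2 * (w.length + 1) ≤ w.length + z.length →
          ∃ h, RN (dev G L) h (w.map some ++ none :: z) (A B (decide (i ∈ u))) (seg w.length (cel v u i) 0 ++ rest) := by
        intro B i v u rest hi hc hs hs'
        have hr : ∀ r : Gam V T L, Str (Cert G w m) w r.1 i u → ∃ h, RN (dev G L) h (w.map some ++ none :: z)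
            (if r.1 = [] then (if decide (i ∈ u) = true then acc else dead) else W 1 r false false)
            (seg w.length (cel v u i) 0 ++ rest) := by
          intro r hS
          by_cases hr : r.1 = []
          · rw [hr] at hS
            have hiu : i ∈ u := hS
            rw [if_pos hr, if_pos (by simpa using hiu)]
            refine acc_bwd _ _ ?_
            simp only [List.length_append, seg_length, List.length_cons, List.length_map]
            omega
          · rw [if_neg hr]
            obtain ⟨X2, γ2, hX⟩ := List.exists_cons_of_ne_nil hr
            rw [hX] at hS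
            refine fw_bwd (fun γ i v u rest h4 h5 h6 h7 => IH γ2 X2 γ i v u rest h4 h5 h6 h7) (γ := r) hX hi hS
              (t := 1) (by decide) (by
                intro l hl
                exact ⟨rfl, rfl, fun h => absurd h (by decide), fun _ => rfl⟩) ?_
            have h8 : γ2.length + 1 ≤ L := by
              have := r.2
              rw [hX, List.length_cons] at this
              exact this
            have h9 : (w.length + 1) * (2 * (γ2.length + 1) + 2 * L * m) ≤ (w.length + 1) * (2 * L * (m + 1)) := by
              apply Nat.mul_le_mul_left
              have : 2 * L * (m + 1) = 2 * L * m + 2 * L := by ring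
              omega
            have h10 : (w.length + 1) * (1 + 2 * L * (m + 1)) = (w.length + 1) + (w.length + 1) * (2 * L * (m + 1)) := by
              ring
            omega
        rcases hc with ⟨hB, r, hrB, hS⟩ | ⟨hB, ⟨r0, hr0⟩, hS⟩
        · refine ra_step (P := dev G L) (q' := if r = [] then (if decide (i ∈ u) = true then acc else dead)
              else W 1 ⟨r, hL B r hrB⟩ false false) (o := none) (by simpa [dev, unv] using hB) (by
                simp only [dev, stp, Set.mem_ofPred_eq]
                exact ⟨⟨r, hL B r hrB⟩, hrB, rfl⟩) ?_
          simpa using hr ⟨r, hL B r hrB⟩ hS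
        · refine ra_all (P := dev G L) (by simpa [dev, unv] using hB) ⟨(if r0 = [] then
              (if decide (i ∈ u) = true then acc else dead) else W 1 ⟨r0, hL B r0 hr0⟩ false false, none), by
                simp only [dev, stp, Set.mem_ofPred_eq]
                exact ⟨⟨r0, hL B r0 hr0⟩, hr0, rfl⟩⟩ ?_
          intro q' o hq
          simp only [dev, stp, Set.mem_ofPred_eq, Prod.mk.injEq] at hq
          obtain ⟨r, hrB, rfl, rfl⟩ := hq
          simpa using hr r (hS r.1 hrB)
      have hα : ∀ (γ' : List (V ⊕ T)) (X : V ⊕ T) (i : ℕ) (v u : Finset ℕ) (rest : List Cell), i ≤ w.length →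
          Cond G w (m + 1) X i v u γ' →
          rest.length + (w.length + 1) * (2 * (γ'.length + 1) + 2 * L * (m + 1)) ≤ w.length + z.length →
          ∃ h, RN (dev G L) h (w.map some ++ none :: z) (alp X (decide (i ∈ u))) (seg w.length (cel v u i) 0 ++ rest) := by
        intro γ' X i v u rest hi hc hs
        have hs0 : (w.length + 1) * 2 ≤ (w.length + 1) * (2 * (γ'.length + 1) + 2 * L * (m + 1)) :=
          Nat.mul_le_mul_left _ (by omega)
        have hs1 : (w.length + 1) * (1 + 2 * L * (m + 1)) ≤
            (w.length + 1) * (2 * (γ'.length + 1) + 2 * L * (m + 1)) := Nat.mul_le_mul_left _ (by omega)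
        rcases X with B | a
        · exact hA B i v u rest hi (hc.1 B rfl) (by omega) (by omega)
        · have hc1 := hc.2.1 a rfl
          have hin : i < w.length := by
            have := hc1.1
            rw [List.getElem?_eq_some_iff] at this
            exact this.1
          simp only [alp]
          refine chk_bwd w i _ (cel v u i i) (cel v u i (i + 1)) ?_ ?_ (by simp [cel]) hc1.1 ?_ (by simp [cel, hc1.2]) ?_
          · intro j hj
            refine ⟨cel v u i j, ?_, ?_⟩
            · rw [List.getElem?_append_left (by rw [seg_length]; omega), seg_getElem (by omega), Nat.zero_add]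
            · have : ¬ j = i := by omega
              simp [cel, this]
          · rw [List.getElem?_append_left (by rw [seg_length]; omega), seg_getElem (by omega), Nat.zero_add]
          · rw [List.getElem?_append_left (by rw [seg_length]; omega), seg_getElem (by omega), Nat.zero_add]
          · simp only [List.length_append, seg_length]
            omega
      intro γ'
      induction γ' with
      | nil =>
          intro X γ i v u rest hγ hi hc hs
          have hs0 : (w.length + 1) * 2 ≤ (w.length + 1) * (2 * (([] : List (V ⊕ T)).length + 1) + 2 * L * (m + 1)) :=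
            Nat.mul_le_mul_left _ (by omega)
          refine ra_all (P := dev G L) (by simp [dev, unv]) ⟨(W 2 ⟨[], Nat.zero_le _⟩ false false, none), by
            simp only [dev, stp, Set.mem_ofPred_eq]
            exact ⟨X, ⟨[], Nat.zero_le _⟩, hγ, Or.inr rfl⟩⟩ ?_
          intro q' o hq
          simp only [dev, stp, Set.mem_ofPred_eq] at hq
          obtain ⟨X1, γ1, h1, h2⟩ := hq
          rw [hγ, List.cons.injEq] at h1
          obtain ⟨rfl, h1⟩ := h1
          rcases h2 with h2 | h2
          · simp only [Prod.mk.injEq] at h2
            obtain ⟨rfl, rfl⟩ := h2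
            simpa using hα [] X i v u rest hi hc hs
          · simp only [Prod.mk.injEq] at h2
            obtain ⟨rfl, rfl⟩ := h2
            simp only [Option.toList_none, List.nil_append]
            have h3 := mark_bwd (G := G) (f := cel v u i) (rest := rest) (γ := γ1) (w := w) (z := z) (fun l _ => rfl)
              (by omega) w.length le_rfl false (by
                intro j hj hju
                have hju' : j ∈ u := by simpa [cel] using hju
                have hjv : j ∈ v := hc.2.2 j hj hju'
                refine ra_step (P := dev G L) (q' := acc) (o := none) (by simp [dev, unv]) (by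
                  simp [dev, stp, ← h1, cel, hjv]) ?_
                refine acc_bwd _ _ ?_
                simp only [Option.toList_none, List.nil_append, List.length_append, seg_length, List.length_cons,
                  List.length_map]
                omega)
            rw [seg_nil] at h3
            simpa using h3
      | cons X2 γ2 ih =>
          intro X γ i v u rest hγ hi hc hs
          have hs1 : (w.length + 1) * (2 * ((X2 :: γ2).length + 1) + 2 * L * (m + 1)) =
              (w.length + 1) * (2 * (γ2.length + 1) + 2 * L * (m + 1)) + 2 * (w.length + 1) := by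
            simp only [List.length_cons]; ring
          have hlen : (X2 :: γ2).length ≤ L := by
            have := γ.2
            rw [hγ, List.length_cons] at this
            omega
          refine ra_all (P := dev G L) (by simp [dev, unv]) ⟨(W 2 ⟨X2 :: γ2, hlen⟩ false false, none), by
            simp only [dev, stp, Set.mem_ofPred_eq]
            exact ⟨X, ⟨X2 :: γ2, hlen⟩, hγ, Or.inr rfl⟩⟩ ?_
          intro q' o hq
          simp only [dev, stp, Set.mem_ofPred_eq] at hq
          obtain ⟨X1, γ1, h1, h2⟩ := hq
          rw [hγ, List.cons.injEq] at h1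
          obtain ⟨rfl, h1⟩ := h1
          rcases h2 with h2 | h2
          · simp only [Prod.mk.injEq] at h2
            obtain ⟨rfl, rfl⟩ := h2
            simpa using hα (X2 :: γ2) X i v u rest hi hc hs
          · simp only [Prod.mk.injEq] at h2
            obtain ⟨rfl, rfl⟩ := h2
            simp only [Option.toList_none, List.nil_append]
            have h3 := mark_bwd (G := G) (f := cel v u i) (rest := rest) (γ := γ1) (w := w) (z := z) (fun l _ => rfl)
              (by omega) w.length le_rfl false (by
                intro j hj hju
                have hju' : j ∈ u := by simpa [cel] using hju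
                have hjS := hc.2.2 j hj hju'
                refine ra_step (P := dev G L) (q' := W 0 γ1 false false) (o := none) (by simp [dev, unv]) (by
                  simp [dev, stp, ← h1]) ?_
                simp only [Option.toList_none, List.nil_append]
                refine fw_bwd (fun γ i v u rest h4 h5 h6 h7 => ih X2 γ i v u rest h4 h5 h6 h7) (γ := γ1) h1.symm hj hjS
                  (t := 0) (by decide) (by
                    intro l hl
                    exact ⟨rfl, rfl, fun _ => rfl, fun h => absurd h (by decide)⟩) ?_
                simp only [List.length_append, seg_length]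
                omega)
            rw [seg_nil] at h3
            simpa using h3

end Pool.Agent.H97.LM
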