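import Pool.Agent.H97.LM.Def

/-!
# Certificates for leftmost derivations of alternating context-free grammars

`Cert G w h A i v`: a certificate of depth at most `h` for the variable `A` at position `i` of `w` over the set `v` of positions.
-/

set_option autoImplicit false

namespace Pool.Agent.H97.LM

variable {V T : Type}

/-- The certificate condition for a string `γ` at position `i` of `w` over `v`, given the condition `C` for variables:
a terminal must be the letter of `w` at this position; for a variable `B` some set `u` of positions `≥ i` is guessed, `B` is
certified at `i` over `u`, and the rest of the string is certified at every position of `u` over `v`; the empty string needs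
`i ∈ v`. -/
def Str (C : V → ℕ → Finset ℕ → Prop) (w : List T) : List (V ⊕ T) → ℕ → Finset ℕ → Prop
  | [], i, v => i ∈ v
  | Sum.inr a :: γ, i, v => w[i]? = some a ∧ Str C w γ (i + 1) v
  | Sum.inl B :: γ, i, v => ∃ u ⊆ Finset.Icc i w.length, C B i u ∧ ∀ j ∈ u, Str C w γ j v

/-- Certificates of depth at most `h` for a variable at a position over a set of positions. -/
def Cert (G : ACFG V T) (w : List T) : ℕ → V → ℕ → Finset ℕ → Prop
  | 0, _, _, _ => False
  | h + 1, A, i, v =>
      (¬ G.univ A ∧ ∃ r ∈ G.prod A, Str (Cert G w h) w r i v) ∨
      (G.univ A ∧ (G.prod A).Nonempty ∧ ∀ r ∈ G.prod A, Str (Cert G w h) w r i v)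

end Pool.Agent.H97.LM
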