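import Pool.Agent.H97.LM.Low

/-! Completeness: a derivable form has certificates of some depth. -/

set_option autoImplicit false
set_option linter.unusedVariables false

namespace Pool.Agent.H97.LM

variable {V T : Type}

/-- derivable with height at most `h` -/
def DerN (G : ACFG V T) (w : List T) : ℕ → List (V ⊕ T) → Prop
  | 0, f => f = w.map Sum.inr
  | h + 1, f => DerN G w h f ∨ ∃ (γ : List T) (A : V) (δ : List (V ⊕ T)), f = γ.map Sum.inr ++ Sum.inl A :: δ ∧
      ((¬ G.univ A ∧ ∃ r ∈ G.prod A, DerN G w h (γ.map Sum.inr ++ (r ++ δ))) ∨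
       (G.univ A ∧ (G.prod A).Nonempty ∧ ∀ r ∈ G.prod A, DerN G w h (γ.map Sum.inr ++ (r ++ δ))))

theorem DerN_mono {G : ACFG V T} {w : List T} {h h' : ℕ} (hh : h ≤ h') {f : List (V ⊕ T)} (H : DerN G w h f) :
    DerN G w h' f := by
  induction hh with
  | refl => exact H
  | step _ ih => exact Or.inl ih

theorem Der.toN {G : ACFG V T} {w : List T} {f : List (V ⊕ T)} (H : Der G w f) : ∃ h, DerN G w h f := by
  induction H with
  | leaf => exact ⟨0, rfl⟩
  | ex γ A δ r hA hr _ ih =>
      obtain ⟨h, hh⟩ := ih
      exact ⟨h + 1, Or.inr ⟨γ, A, δ, rfl, Or.inl ⟨hA, r, hr, hh⟩⟩⟩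
  | all γ A δ hA hn _ ih =>
      choose! g hg using ih
      refine ⟨(G.prod A).sup g + 1, Or.inr ⟨γ, A, δ, rfl, Or.inr ⟨hA, hn, fun r hr => ?_⟩⟩⟩
      exact DerN_mono (Finset.le_sup hr) (hg r hr)

theorem dec_append : ∀ (u γ : List T) (A : V) (f δ : List (V ⊕ T)),
    u.map Sum.inr ++ f = γ.map Sum.inr ++ Sum.inl A :: δ →
      ∃ γ', γ = u ++ γ' ∧ f = γ'.map Sum.inr ++ Sum.inl A :: δ
  | [], γ, A, f, δ => fun h => ⟨γ, rfl, by simpa using h⟩
  | a :: u, [], A, f, δ => fun h => by simp at h
  | a :: u, b :: γ, A, f, δ => fun h => by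
      simp only [List.map_cons, List.cons_append, List.cons.injEq, Sum.inr.injEq] at h
      obtain ⟨γ', h1, h2⟩ := dec_append u γ A f δ h.2
      exact ⟨γ', by rw [h1, h.1]; rfl, h2⟩

theorem DerN_prefix {G : ACFG V T} {w : List T} : ∀ (h : ℕ) (u : List T) (f : List (V ⊕ T)),
    DerN G w h (u.map Sum.inr ++ f) → u <+: w
  | 0, u, f => fun H => by
      have H' : w.map (Sum.inr : T → V ⊕ T) = u.map Sum.inr ++ f := H.symm
      rw [List.map_eq_append_iff] at H'
      obtain ⟨l1, l2, h1, h2, _⟩ := H'
      have h3 : l1 = u := (List.map_injective_iff.mpr Sum.inr_injective) h2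
      exact ⟨l2, by rw [h1, h3]⟩
  | h + 1, u, f => fun H => by
      rcases H with H | ⟨γ, A, δ, h1, h2⟩
      · exact DerN_prefix h u f H
      · obtain ⟨γ', h3, h4⟩ := dec_append u γ A f δ h1
        have h5 : ∃ r, DerN G w h (γ.map Sum.inr ++ (r ++ δ)) := by
          rcases h2 with ⟨_, r, _, h5⟩ | ⟨_, ⟨r, hr⟩, h5⟩
          · exact ⟨r, h5⟩
          · exact ⟨r, h5 r hr⟩
        obtain ⟨r, h5⟩ := h5
        rw [h3, List.map_append, List.append_assoc] at h5
        exact DerN_prefix h u _ h5

theorem DerN_term {G : ACFG V T} {w : List T} : ∀ (h : ℕ) (u : List T), DerN G w h (u.map Sum.inr) → u = w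
  | 0, u => fun H => (List.map_injective_iff.mpr Sum.inr_injective) H
  | h + 1, u => fun H => by
      rcases H with H | ⟨γ, A, δ, h1, h2⟩
      · exact DerN_term h u H
      · obtain ⟨γ', h3, h4⟩ := dec_append u γ A [] δ (by simpa using h1)
        simp at h4

open Classical in
/-- the positions `≥ i` at which `δ` is derivable with height `h` -/
noncomputable def Dp (G : ACFG V T) (w : List T) (h i : ℕ) (δ : List (V ⊕ T)) : Finset ℕ :=
  (Finset.Icc i w.length).filter fun j => DerN G w h ((w.take j).map Sum.inr ++ δ)

theorem Dp_sub {G : ACFG V T} {w : List T} {h : ℕ} (i : ℕ) (δ : List (V ⊕ T)) :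
    Dp G w h i δ ⊆ Finset.Icc i w.length := by
  intro j hj
  simp only [Dp, Finset.mem_filter] at hj
  exact hj.1

theorem Dp_mono {G : ACFG V T} {w : List T} {h h' i i' : ℕ} (hh : h ≤ h') (hi : i' ≤ i) (δ : List (V ⊕ T)) :
    Dp G w h i δ ⊆ Dp G w h' i' δ := by
  intro j hj
  simp only [Dp, Finset.mem_filter, Finset.mem_Icc] at hj ⊢
  exact ⟨⟨hi.trans hj.1.1, hj.1.2⟩, DerN_mono hh hj.2⟩

theorem complete {G : ACFG V T} {w : List T} (h : ℕ) : ∀ (γ : List (V ⊕ T)) (i : ℕ) (δ : List (V ⊕ T)), i ≤ w.length →
    DerN G w h ((w.take i).map Sum.inr ++ (γ ++ δ)) → ∃ m, Str (Cert G w m) w γ i (Dp G w h i δ) := by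
  induction h with
  | zero =>
      intro γ
      induction γ with
      | nil =>
          intro i δ hi H
          refine ⟨0, ?_⟩
          simp only [Str, Dp, Finset.mem_filter, Finset.mem_Icc]
          exact ⟨⟨le_rfl, hi⟩, by simpa using H⟩
      | cons X γ ih =>
          intro i δ hi H
          rcases X with A | a
          · exfalso
            have H' : ((w.take i).map Sum.inr ++ (Sum.inl A :: γ ++ δ) : List (V ⊕ T)) = w.map Sum.inr := H
            have : (Sum.inl A : V ⊕ T) ∈ w.map Sum.inr := by
              rw [← H']; simp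
            simp at this
          · have H1 : DerN G w 0 ((w.take i ++ [a]).map Sum.inr ++ (γ ++ δ)) := by simpa using H
            have h2 := DerN_prefix 0 _ _ H1
            have h3 : w.take i ++ [a] = w.take (i + 1) := by
              have := List.prefix_iff_eq_take.mp h2
              simpa [hi] using this
            have h4 : i + 1 ≤ w.length := by
              have := h2.length_le
              simpa [hi] using this
            have h5 : w[i]? = some a := by
              have h6 : (w.take (i + 1))[i]? = some a := by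
                rw [← h3, List.getElem?_append_right (by simp)]
                simp [hi]
              simpa using h6
            rw [h3] at H1
            obtain ⟨m, hm⟩ := ih (i + 1) δ h4 H1
            exact ⟨m, h5, Str_vmono (Dp_mono le_rfl (Nat.le_succ i) δ) γ (i + 1) hm⟩
  | succ h IH =>
      intro γ
      induction γ with
      | nil =>
          intro i δ hi H
          refine ⟨0, ?_⟩
          simp only [Str, Dp, Finset.mem_filter, Finset.mem_Icc]
          exact ⟨⟨le_rfl, hi⟩, by simpa using H⟩
      | cons X γ ih =>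
          intro i δ hi H
          rcases X with A | a
          · rcases H with H | ⟨γ0, A0, δ0, h1, h2⟩
            · obtain ⟨m, hm⟩ := IH _ i δ hi H
              exact ⟨m, Str_vmono (Dp_mono (Nat.le_succ h) le_rfl δ) _ i hm⟩
            · obtain ⟨γ', h3, h4⟩ := dec_append _ γ0 A0 _ δ0 h1
              have h5 : γ' = [] ∧ A0 = A ∧ δ0 = γ ++ δ := by
                rcases γ' with _ | ⟨b, γ'⟩
                · simp only [List.map_nil, List.nil_append, List.cons_append, List.cons.injEq, Sum.inl.injEq] at h4
                  exact ⟨rfl, h4.1.symm, h4.2.symm⟩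
                · simp at h4
              obtain ⟨rfl, rfl, rfl⟩ := h5
              rw [List.append_nil] at h3
              subst h3
              -- the certificate for `A`
              have h6 : ∃ m, Cert G w m A0 i (Dp G w h i (γ ++ δ)) := by
                rcases h2 with ⟨hA, r, hr, h2⟩ | ⟨hA, hn, h2⟩
                · obtain ⟨m, hm⟩ := IH r i (γ ++ δ) hi h2
                  exact ⟨m + 1, Or.inl ⟨hA, r, hr, hm⟩⟩
                · have h7 : ∀ r ∈ G.prod A0, ∃ m, Str (Cert G w m) w r i (Dp G w h i (γ ++ δ)) :=
                    fun r hr => IH r i (γ ++ δ) hi (h2 r hr)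
                  choose! g hg using h7
                  refine ⟨(G.prod A0).sup g + 1, Or.inr ⟨hA, hn, fun r hr => ?_⟩⟩
                  exact Str_mono (fun B j u hB => Cert_mono (Finset.le_sup hr) hB) r i _ (hg r hr)
              obtain ⟨m, hm⟩ := h6
              have h7 : ∀ j ∈ Dp G w h i (γ ++ δ), ∃ m, Str (Cert G w m) w γ j (Dp G w (h + 1) i δ) := by
                intro j hj
                simp only [Dp, Finset.mem_filter, Finset.mem_Icc] at hj
                obtain ⟨m, hm⟩ := IH γ j δ hj.1.2 hj.2
                exact ⟨m, Str_vmono (Dp_mono (Nat.le_succ h) hj.1.1 δ) γ j hm⟩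
              choose! g hg using h7
              refine ⟨max m ((Dp G w h i (γ ++ δ)).sup g), Dp G w h i (γ ++ δ), ?_, Cert_mono (le_max_left _ _) hm, ?_⟩
              · exact Dp_sub i (γ ++ δ)
              · intro j hj
                exact Str_mono (fun B k u hB => Cert_mono ((Finset.le_sup hj).trans (le_max_right _ _)) hB) γ j _ (hg j hj)
          · have H1 : DerN G w (h + 1) ((w.take i ++ [a]).map Sum.inr ++ (γ ++ δ)) := by simpa using H
            have h2 := DerN_prefix (h + 1) _ _ H1
            have h3 : w.take i ++ [a] = w.take (i + 1) := by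
              have := List.prefix_iff_eq_take.mp h2
              simpa [hi] using this
            have h4 : i + 1 ≤ w.length := by
              have := h2.length_le
              simpa [hi] using this
            have h5 : w[i]? = some a := by
              have h6 : (w.take (i + 1))[i]? = some a := by
                rw [← h3, List.getElem?_append_right (by simp)]
                simp [hi]
              simpa using h6
            rw [h3] at H1
            obtain ⟨m, hm⟩ := ih (i + 1) δ h4 H1
            exact ⟨m, h5, Str_vmono (Dp_mono le_rfl (Nat.le_succ i) δ) γ (i + 1) hm⟩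

/-- a word generated in leftmost mode has a certificate -/
theorem Der.cert {G : ACFG V T} {w : List T} {A : V} (H : Der G w [Sum.inl A]) : ∃ m, Cert G w m A 0 {w.length} := by
  obtain ⟨h, hh⟩ := H.toN
  obtain ⟨m, u, _, h1, h2⟩ := complete (G := G) (w := w) h [Sum.inl A] 0 [] (Nat.zero_le _) (by simpa using hh)
  refine ⟨m, Cert_vmono ?_ m A 0 h1⟩
  intro j hj
  have h3 := h2 j hj
  simp only [Str, Dp, Finset.mem_filter, Finset.mem_Icc, List.append_nil] at h3
  have h4 := DerN_term h _ h3.2
  have h5 : (w.take j).length = w.length := by rw [h4]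
  rw [List.length_take] at h5
  rw [Finset.mem_singleton]
  omega

/-- a certificate gives a derivation -/
theorem Cert.der {G : ACFG V T} {w : List T} {A : V} {m : ℕ} (H : Cert G w m A 0 {w.length}) : Der G w [Sum.inl A] := by
  have h1 := Cert_sound m A 0 {w.length} [] H (fun j hj => by
    rw [Finset.mem_singleton] at hj
    subst hj
    simpa using Der.leaf)
  simpa using h1

end Pool.Agent.H97.LM
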