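import Mathlib

/-!
# Alternating context-free grammars and alternating grammars with productions `A α → β` in leftmost mode

`Der G w f` and `DerL G w f`: some finite tree of leftmost steps of `G` has root `f` and all leaves `w`.
-/

set_option autoImplicit false

namespace Pool.Agent.H97.LM

/-- An alternating context-free grammar: which variables are universal, the right-hand sides of each variable, the start symbol. -/
structure ACFG (V T : Type) where
  univ : V → Prop
  prod : V → Finset (List (V ⊕ T))
  start : V

variable {V T : Type}

/-- `Der G w f`: there is a finite tree with root `f` in which the children of each inner node are the results of one leftmost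
step and all leaves are `w`. -/
inductive Der (G : ACFG V T) (w : List T) : List (V ⊕ T) → Prop
  | leaf : Der G w (w.map Sum.inr)
  | ex (γ : List T) (A : V) (δ r : List (V ⊕ T)) : ¬ G.univ A → r ∈ G.prod A → Der G w (γ.map Sum.inr ++ (r ++ δ)) →
      Der G w (γ.map Sum.inr ++ Sum.inl A :: δ)
  | all (γ : List T) (A : V) (δ : List (V ⊕ T)) : G.univ A → (G.prod A).Nonempty →
      (∀ r ∈ G.prod A, Der G w (γ.map Sum.inr ++ (r ++ δ))) → Der G w (γ.map Sum.inr ++ Sum.inl A :: δ)

/-- An alternating phrase-structure grammar with finitely many productions `A α → β` (`A` a variable): which variables are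
universal, the productions `(A, α, β)`, the start symbol. -/
structure APSG (V T : Type) where
  univ : V → Prop
  rules : Finset (V × List (V ⊕ T) × List (V ⊕ T))
  start : V

/-- `DerL G w f`: there is a finite tree with root `f` in which the children of each inner node are the results of one leftmost
step (a production `A α → β` is applied behind a terminal word `γ`; for universal `A` all productions with this left-hand side)
and all leaves are `w`. -/
inductive DerL {V T : Type} (G : APSG V T) (w : List T) : List (V ⊕ T) → Prop
  | leaf : DerL G w (w.map Sum.inr)
  | ex (γ : List T) (A : V) (α β δ : List (V ⊕ T)) : ¬ G.univ A → (A, α, β) ∈ G.rules →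
      DerL G w (γ.map Sum.inr ++ (β ++ δ)) → DerL G w (γ.map Sum.inr ++ Sum.inl A :: (α ++ δ))
  | all (γ : List T) (A : V) (α δ : List (V ⊕ T)) : G.univ A → (∃ β, (A, α, β) ∈ G.rules) →
      (∀ β, (A, α, β) ∈ G.rules → DerL G w (γ.map Sum.inr ++ (β ++ δ))) →
      DerL G w (γ.map Sum.inr ++ Sum.inl A :: (α ++ δ))

/-- the grammar is context-sensitive -/
def APSG.Mono {V T : Type} (G : APSG V T) : Prop := ∀ A α β, (A, α, β) ∈ G.rules → α.length + 1 ≤ β.length

end Pool.Agent.H97.LM
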