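import Pool.Agent.H97.LM.Arp

/-! The device that plays the certificate game of an alternating context-free grammar on its stack. -/

set_option autoImplicit false
set_option linter.unusedVariables false
set_option linter.unusedSectionVars false

namespace Pool.Agent.H97.LM

/-- cells: is the column in `v`, is it in `u`, is it the marked position, is it column `0` -/
abbrev Cell := Bool × Bool × Bool × Bool

def cel (v u : Finset ℕ) (i k : ℕ) : Cell := (decide (k ∈ v), decide (k ∈ u), decide (k = i), decide (k = 0))

/-- the cells of the columns `k, …, n` -/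
def seg (n : ℕ) (f : ℕ → Cell) (k : ℕ) : List Cell := (List.range' k (n + 1 - k)).map f

theorem seg_cons {n : ℕ} {f : ℕ → Cell} {k : ℕ} (h : k ≤ n) : seg n f k = f k :: seg n f (k + 1) := by
  unfold seg
  have : n + 1 - k = (n + 1 - (k + 1)) + 1 := by omega
  rw [this, List.range'_succ, List.map_cons]

theorem seg_nil {n : ℕ} {f : ℕ → Cell} : seg n f (n + 1) = [] := by
  simp [seg]

theorem seg_length {n : ℕ} {f : ℕ → Cell} {k : ℕ} : (seg n f k).length = n + 1 - k := by
  simp [seg]

theorem seg_congr {n : ℕ} {f g : ℕ → Cell} {k : ℕ} (h : ∀ l, k ≤ l → l ≤ n → f l = g l) : seg n f k = seg n g k := by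
  unfold seg
  apply List.map_congr_left
  intro l hl
  rw [List.mem_range'_1] at hl
  exact h l hl.1 (by omega)

theorem seg_getElem {n : ℕ} {f : ℕ → Cell} {k j : ℕ} (h : k + j ≤ n) : (seg n f k)[j]? = some (f (k + j)) := by
  unfold seg
  rw [List.getElem?_map, List.getElem?_range' (by omega)]
  simp

variable {V T : Type}

abbrev Gam (V T : Type) (L : ℕ) := {l : List (V ⊕ T) // l.length ≤ L}

instance {V T : Type} [Finite V] [Finite T] {L : ℕ} : Finite (Gam V T L) :=
  (List.finite_length_le (V ⊕ T) L).to_subtype

/-- states -/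
inductive St (V T : Type) (L : ℕ) : Type
  | ini (f : Bool) : St V T L
  | iniD (b : Bool) : St V T L
  | len : St V T L
  | acc : St V T L
  | dead : St V T L
  | cpr (x : Cell) : St V T L
  | chk (a : T) : St V T L
  | chk1 : St V T L
  | W (t : Fin 3) (γ : Gam V T L) (m b : Bool) : St V T L
  | C (t : Fin 3) (γ : Gam V T L) (m b : Bool) (x y : Cell) : St V T L
  | NE (γ : Gam V T L) (b : Bool) : St V T L
  | NB (γ : Gam V T L) (m b : Bool) : St V T L
  | A (B : V) (b : Bool) : St V T L

open St

def code {V T : Type} {L : ℕ} : St V T L →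
    ℕ × Bool × Bool × Cell × Cell × Option T × Fin 3 × Option (Gam V T L) × Option V
  | ini f => (0, f, false, default, default, none, 0, none, none)
  | iniD b => (1, b, false, default, default, none, 0, none, none)
  | len => (2, false, false, default, default, none, 0, none, none)
  | acc => (3, false, false, default, default, none, 0, none, none)
  | dead => (4, false, false, default, default, none, 0, none, none)
  | cpr x => (5, false, false, x, default, none, 0, none, none)
  | chk a => (6, false, false, default, default, some a, 0, none, none)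
  | chk1 => (7, false, false, default, default, none, 0, none, none)
  | W t γ m b => (8, m, b, default, default, none, t, some γ, none)
  | C t γ m b x y => (9, m, b, x, y, none, t, some γ, none)
  | NE γ b => (10, b, false, default, default, none, 0, some γ, none)
  | NB γ m b => (11, m, b, default, default, none, 0, some γ, none)
  | A B b => (12, b, false, default, default, none, 0, none, some B)

theorem code_inj {V T : Type} {L : ℕ} : Function.Injective (code (V := V) (T := T) (L := L)) := by
  intro a b h
  cases a <;> cases b <;> simp_all [code]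

theorem code_lt {V T : Type} {L : ℕ} (s : St V T L) : (code s).1 < 13 := by
  cases s <;> simp [code]

instance {V T : Type} [Finite V] [Finite T] {L : ℕ} : Finite (St V T L) := by
  refine Finite.of_injective (fun s : St V T L => ((⟨(code s).1, code_lt s⟩, (code s).2) :
    Fin 13 × Bool × Bool × Cell × Cell × Option T × Fin 3 × Option (Gam V T L) × Option V)) ?_
  intro a b h
  apply code_inj
  simp only [Prod.mk.injEq, Fin.mk.injEq] at h
  exact Prod.ext h.1 h.2

/-- which new cell may be written over which old cell of the same column -/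
def okc (t : Fin 3) (x y : Cell) : Prop :=
  y.2.2.2 = x.2.2.2 ∧ ((t = 0 ∧ y.1 = x.1 ∧ y.2.2.1 = x.2.2.1) ∨ (t = 1 ∧ y.1 = x.2.1 ∧ y.2.2.1 = x.2.2.1) ∨
    (t = 2 ∧ y.1 = x.1 ∧ y.2.1 = false ∧ y.2.2.1 = false))

def upd (t : Fin 3) (y : Cell) (b : Bool) : Bool := if t = 2 then b else if y.2.2.1 = true then y.2.1 else b

def nxt {L : ℕ} (t : Fin 3) (γ : Gam V T L) (m b z : Bool) : St V T L :=
  if z = true then (if t = 2 then NB γ m b else NE γ b) else W t γ m b

def alp {L : ℕ} : V ⊕ T → Bool → St V T L
  | Sum.inl B, b => A B b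
  | Sum.inr a, _ => chk a

open Classical in
noncomputable def stp (G : ACFG V T) (L : ℕ) : St V T L → Set (St V T L × Option Cell)
  | ini f => {s | ∃ u : Bool, s = (ini false, some (f, u, false, false)) ∨ s = (iniD u, some (f, u, true, true))}
  | iniD b => {s | s = (len, none) ∨ ∃ γ : Gam V T L, γ.1 = [Sum.inl G.start] ∧ s = (NE γ b, none)}
  | acc => {s | s = (acc, some (false, false, false, false))}
  | W t γ m b => {s | ∃ x y, okc t x y ∧ s = (C t γ m b x y, none)}
  | C t γ m b x y => {s | s = (cpr x, none) ∨ s = (nxt t γ m (upd t y b) y.2.2.2, some y) ∨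
      (t = 2 ∧ m = false ∧ x.2.1 = true ∧ s = (nxt 2 γ true y.1 y.2.2.2, some (y.1, y.2.1, true, y.2.2.2)))}
  | NE γ b => {s | ∃ (X : V ⊕ T) (γ' : Gam V T L), γ.1 = X :: γ'.1 ∧ (s = (alp X b, none) ∨ s = (W 2 γ' false false, none))}
  | NB γ m b => {s | s = (if m = false then acc else if γ.1 = [] then (if b = true then acc else dead)
      else W 0 γ false false, none)}
  | A B b => {s | ∃ r : Gam V T L, r.1 ∈ G.prod B ∧
      s = (if r.1 = [] then (if b = true then acc else dead) else W 1 r false false, none)}
  | _ => ∅

def pp {L : ℕ} : St V T L → Cell → Set (Option T × St V T L)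
  | acc, _ => {s | s.2 = acc}
  | cpr x, Y => {s | (∃ a, s = (some a, cpr x)) ∨ (Y = x ∧ s = (none, acc))}
  | len, Y => {s | (Y.1 = false ∧ ∃ a, s = (some a, len)) ∨ (Y.1 = true ∧ s = (none, acc))}
  | chk a, Y => {s | (Y.2.2.1 = false ∧ ∃ b, s = (some b, chk a)) ∨ (Y.2.2.1 = true ∧ s = (some a, chk1))}
  | chk1, Y => {s | Y.2.1 = true ∧ s.2 = acc}
  | _, _ => ∅

def unv (G : ACFG V T) {L : ℕ} : St V T L → Prop
  | iniD _ => True
  | C _ _ _ _ _ _ => True
  | NE _ _ => True
  | A B _ => G.univ B
  | _ => False

def fn {L : ℕ} : St V T L → Set (Option T)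
  | acc => Set.univ
  | _ => ∅

/-- the device of a grammar -/
noncomputable def dev (G : ACFG V T) (L : ℕ) : ARP (St V T L) Cell (Option T) where
  univ := unv G
  step := stp G L
  pop := pp
  fin := fn
  uni := by
    intro q hq
    cases q <;> simp_all [unv, fn, pp]
  start := ini true

end Pool.Agent.H97.LM
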