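import Pool.Agent.H97.LM.Dev

/-! From acceptance by the device to certificates. -/

set_option autoImplicit false
set_option linter.unusedVariables false
set_option linter.unusedSectionVars false

namespace Pool.Agent.H97.LM

open St

section inv
variable {Q X T : Type} {P : ARP Q X T}

theorem ex_inv {h : ℕ} {z : List T} {q : Q} {δ : List X} (hu : ¬ P.univ q) (hp : ∀ Y, P.pop q Y = ∅)
    (hf : P.fin q = ∅) (H : RN P h z q δ) : ∃ h', h' < h ∧ ∃ q' o, (q', o) ∈ P.step q ∧ RN P h' z q' (o.toList ++ δ) := by
  rcases h with _ | h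
  · exact H.elim
  · rcases H with ⟨_, h2⟩ | ⟨h1, _⟩
    · rcases h2 with ⟨q', o, h2, h3⟩ | ⟨Y, δ', a, z', q', _, _, h4, _⟩ | ⟨a, h4, _⟩
      · exact ⟨h, Nat.lt_succ_self h, q', o, h2, h3⟩
      · rw [hp] at h4; exact h4.elim
      · rw [hf] at h4; exact h4.elim
    · exact absurd h1 hu

theorem un_inv {h : ℕ} {z : List T} {q : Q} {δ : List X} (hu : P.univ q) (H : RN P h z q δ) :
    ∃ h', h' < h ∧ (P.step q).Nonempty ∧ ∀ q' o, (q', o) ∈ P.step q → RN P h' z q' (o.toList ++ δ) := by
  rcases h with _ | h
  · exact H.elim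
  · rcases H with ⟨h1, _⟩ | ⟨_, h2, h3⟩
    · exact absurd hu h1
    · exact ⟨h, Nat.lt_succ_self h, h2, h3⟩

theorem pop_inv {h : ℕ} {z : List T} {q : Q} {δ : List X} (hu : ¬ P.univ q) (hs : P.step q = ∅)
    (hf : P.fin q = ∅) (H : RN P h z q δ) :
    ∃ h', h' < h ∧ ∃ Y δ' a z' q', δ = Y :: δ' ∧ z = a :: z' ∧ (a, q') ∈ P.pop q Y ∧ RN P h' z' q' δ' := by
  rcases h with _ | h
  · exact H.elim
  · rcases H with ⟨_, h2⟩ | ⟨h1, _⟩
    · rcases h2 with ⟨q', o, h2, h3⟩ | ⟨Y, δ', a, z', q', h3, h4, h5, h6⟩ | ⟨a, h4, _⟩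
      · rw [hs] at h2; exact h2.elim
      · exact ⟨h, Nat.lt_succ_self h, Y, δ', a, z', q', h3, h4, h5, h6⟩
      · rw [hf] at h4; exact h4.elim
    · exact absurd h1 hu

end inv

variable {V T : Type} {G : ACFG V T} {L : ℕ}

theorem dead_fwd {h : ℕ} {z : List (Option T)} {δ : List Cell} (H : RN (dev G L) h z dead δ) : False := by
  obtain ⟨h', _, q', o, h1, _⟩ := ex_inv (P := dev G L) (q := dead) (by simp [dev, unv]) (by intro Y; rfl) rfl H
  exact h1.elim

theorem cpr_fwd : ∀ (w : List T) (h : ℕ) (z : List (Option T)) (x : Cell) (S : List Cell),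
    RN (dev G L) h (w.map some ++ none :: z) (cpr x) S → S[w.length]? = some x
  | [], h, z, x, S => fun H => by
      obtain ⟨h', _, Y, δ', a, z', q', rfl, h2, h3, _⟩ := pop_inv (P := dev G L) (q := cpr x) (by simp [dev, unv]) rfl rfl H
      simp only [List.map_nil, List.nil_append, List.cons.injEq] at h2
      obtain ⟨rfl, rfl⟩ := h2
      simp only [dev, pp, Set.mem_ofPred_eq, Prod.mk.injEq, reduceCtorEq, false_and, exists_false, true_and, false_or] at h3
      simp [h3.1]
  | b :: w, h, z, x, S => fun H => by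
      obtain ⟨h', _, Y, δ', a, z', q', rfl, h2, h3, h4⟩ := pop_inv (P := dev G L) (q := cpr x) (by simp [dev, unv]) rfl rfl H
      simp only [List.map_cons, List.cons_append, List.cons.injEq] at h2
      obtain ⟨rfl, rfl⟩ := h2
      simp only [dev, pp, Set.mem_ofPred_eq, Prod.mk.injEq, reduceCtorEq, false_and, and_false, or_false,
        Option.some.injEq] at h3
      obtain ⟨_, _, rfl⟩ := h3
      simpa using cpr_fwd w h' z x δ' h4

theorem len_fwd : ∀ (w : List T) (h : ℕ) (z : List (Option T)) (S : List Cell),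
    RN (dev G L) h (w.map some ++ none :: z) len S →
      ∃ A c B, S = A ++ c :: B ∧ A.length = w.length ∧ (∀ d ∈ A, d.1 = false) ∧ c.1 = true
  | [], h, z, S => fun H => by
      obtain ⟨h', _, Y, δ', a, z', q', rfl, h2, h3, _⟩ := pop_inv (P := dev G L) (q := len) (by simp [dev, unv]) rfl rfl H
      simp only [List.map_nil, List.nil_append, List.cons.injEq] at h2
      obtain ⟨rfl, rfl⟩ := h2
      simp only [dev, pp, Set.mem_ofPred_eq, Prod.mk.injEq, reduceCtorEq, false_and, exists_false, and_false, true_and,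
        false_or] at h3
      exact ⟨[], Y, δ', rfl, rfl, by simp, h3.1⟩
  | b :: w, h, z, S => fun H => by
      obtain ⟨h', _, Y, δ', a, z', q', rfl, h2, h3, h4⟩ := pop_inv (P := dev G L) (q := len) (by simp [dev, unv]) rfl rfl H
      simp only [List.map_cons, List.cons_append, List.cons.injEq] at h2
      obtain ⟨rfl, rfl⟩ := h2
      simp only [dev, pp, Set.mem_ofPred_eq, Prod.mk.injEq, reduceCtorEq, false_and, and_false, or_false,
        Option.some.injEq] at h3
      obtain ⟨h5, _, _, rfl⟩ := h3
      obtain ⟨A, c, B, rfl, h6, h7, h8⟩ := len_fwd w h' z δ' h4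
      exact ⟨Y :: A, c, B, rfl, by simp [h6], by
        intro d hd
        rcases List.mem_cons.mp hd with rfl | hd
        · exact h5
        · exact h7 d hd, h8⟩

theorem chk_fwd : ∀ (w : List T) (h : ℕ) (z : List (Option T)) (a : T) (S : List Cell),
    RN (dev G L) h (w.map some ++ none :: z) (chk a) S →
      ∃ k Y Y', (S[k]? = some Y ∧ Y.2.2.1 = true) ∧ w[k]? = some a ∧ S[k + 1]? = some Y' ∧ Y'.2.1 = true
  | [], h, z, a, S => fun H => by
      obtain ⟨h', _, Y, δ', a', z', q', rfl, h2, h3, _⟩ :=
        pop_inv (P := dev G L) (q := chk a) (by simp [dev, unv]) rfl rfl H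
      simp only [List.map_nil, List.nil_append, List.cons.injEq] at h2
      obtain ⟨rfl, rfl⟩ := h2
      simp [dev, pp] at h3
  | b :: w, h, z, a, S => fun H => by
      obtain ⟨h', _, Y, δ', a', z', q', rfl, h2, h3, h4⟩ :=
        pop_inv (P := dev G L) (q := chk a) (by simp [dev, unv]) rfl rfl H
      simp only [List.map_cons, List.cons_append, List.cons.injEq] at h2
      obtain ⟨rfl, rfl⟩ := h2
      simp only [dev, pp, Set.mem_ofPred_eq, Prod.mk.injEq, Option.some.injEq] at h3
      rcases h3 with ⟨h5, _, _, rfl⟩ | ⟨h5, rfl, rfl⟩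
      · obtain ⟨k, Y1, Y2, h6, h7, h8⟩ := chk_fwd w h' z a δ' h4
        exact ⟨k + 1, Y1, Y2, by simpa using h6, by simpa using h7, by simpa using h8⟩
      · obtain ⟨h'', _, Y2, δ'', a'', z'', q'', rfl, h7, h8, _⟩ :=
          pop_inv (P := dev G L) (q := chk1) (by simp [dev, unv]) rfl rfl h4
        simp only [dev, pp, Set.mem_ofPred_eq] at h8
        exact ⟨0, Y, Y2, by simpa using h5, by simp, by simpa using h8.1⟩

/-- inversion of one cell of writing -/
theorem cell_fwd {w : List T} {z : List (Option T)} {f g : ℕ → Cell} {rest : List Cell} {t : Fin 3} {γ : Gam V T L}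
    {m b : Bool} {k h : ℕ} (hk : k ≤ w.length)
    (H : RN (dev G L) h (w.map some ++ none :: z) (W t γ m b) (seg w.length g (k + 1) ++ (seg w.length f 0 ++ rest))) :
    ∃ h', h' < h ∧ ∃ y, okc t (f k) y ∧
      RN (dev G L) h' (w.map some ++ none :: z) (nxt t γ m (upd t y b) y.2.2.2)
        (seg w.length (Function.update g k y) k ++ (seg w.length f 0 ++ rest)) ∧
      (t = 2 → m = false → (f k).2.1 = true →
        RN (dev G L) h' (w.map some ++ none :: z) (nxt 2 γ true y.1 y.2.2.2)
          (seg w.length (Function.update g k (y.1, y.2.1, true, y.2.2.2)) k ++ (seg w.length f 0 ++ rest))) := by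
  have hseg : ∀ y, seg w.length (Function.update g k y) k = y :: seg w.length g (k + 1) := by
    intro y
    rw [seg_cons hk, Function.update_self]
    congr 1
    apply seg_congr
    intro l hl _
    rw [Function.update_of_ne (by omega)]
  obtain ⟨h1, hh1, q', o, hq, H1⟩ := ex_inv (P := dev G L) (q := W t γ m b) (by simp [dev, unv]) (by intro Y; rfl) rfl H
  simp only [dev, stp, Set.mem_ofPred_eq, Prod.mk.injEq] at hq
  obtain ⟨x, y, hok, rfl, rfl⟩ := hq
  obtain ⟨h2, hh2, _, H2⟩ := un_inv (P := dev G L) (q := C t γ m b x y) (by simp [dev, unv]) H1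
  have hc := H2 (cpr x) none (by simp [dev, stp])
  have hx : x = f k := by
    have h3 := cpr_fwd w h2 z x _ hc
    simp only [Option.toList_none, List.nil_append] at h3
    rw [List.getElem?_append_right (by rw [seg_length]; omega), seg_length,
      List.getElem?_append_left (by rw [seg_length]; omega), seg_getElem (by omega)] at h3
    have h4 : 0 + (w.length - (w.length + 1 - (k + 1))) = k := by omega
    rw [h4] at h3
    exact (Option.some.inj h3).symm
  subst hx
  refine ⟨h2, by omega, y, hok, ?_, ?_⟩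
  · have h3 := H2 (nxt t γ m (upd t y b) y.2.2.2) (some y) (by simp [dev, stp])
    rw [hseg]
    simpa using h3
  · intro ht hm hu
    have h3 := H2 (nxt 2 γ true y.1 y.2.2.2) (some (y.1, y.2.1, true, y.2.2.2)) (by
      simp only [dev, stp, Set.mem_ofPred_eq]
      exact Or.inr (Or.inr ⟨ht, hm, hu, trivial⟩))
    rw [hseg]
    simpa using h3

theorem run_fwd {w : List T} {z : List (Option T)} {f : ℕ → Cell} {rest : List Cell} {t : Fin 3} {γ : Gam V T L} {i : ℕ}
    (hz : ∀ l ≤ w.length, (f l).2.2.2 = decide (l = 0)) (hi : t ≠ 2 → ∀ l ≤ w.length, (f l).2.2.1 = decide (l = i)) :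
    ∀ (k : ℕ), k ≤ w.length → ∀ (h : ℕ) (g : ℕ → Cell) (m b : Bool),
      RN (dev G L) h (w.map some ++ none :: z) (W t γ m b) (seg w.length g (k + 1) ++ (seg w.length f 0 ++ rest)) →
      ∃ h', h' < h ∧ ∃ (g' : ℕ → Cell) (b' : Bool), (∀ l, k < l → g' l = g l) ∧ (∀ l ≤ k, okc t (f l) (g' l)) ∧
        (t = 2 → b' = b) ∧ (t ≠ 2 → (i ≤ k → b' = (g' i).2.1) ∧ (k < i → b' = b)) ∧
        RN (dev G L) h' (w.map some ++ none :: z) (if t = 2 then NB γ m b' else NE γ b')
          (seg w.length g' 0 ++ (seg w.length f 0 ++ rest)) := by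
  intro k
  induction k with
  | zero =>
      intro hk h g m b H
      obtain ⟨h', hh, y, hok, H1, _⟩ := cell_fwd hk H
      refine ⟨h', hh, Function.update g 0 y, upd t y b, fun l hl => Function.update_of_ne (by omega) _ _, ?_, ?_, ?_, ?_⟩
      · intro l hl
        obtain rfl : l = 0 := by omega
        simpa using hok
      · intro ht; simp [upd, ht]
      · intro ht
        have hyi : y.2.2.1 = decide (0 = i) := by
          rw [← hi ht 0 hk]
          rcases hok.2 with h1 | h1 | h1
          · exact h1.2.2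
          · exact h1.2.2
          · exact absurd h1.1 ht
        constructor
        · intro h0
          obtain rfl : i = 0 := by omega
          simp only [decide_true] at hyi
          simp [upd, ht, hyi]
        · intro h0
          have : decide (0 = i) = false := by simp; omega
          rw [this] at hyi
          simp [upd, ht, hyi]
      · have hy : y.2.2.2 = true := by rw [hok.1, hz 0 hk]; simp
        rw [hy] at H1
        simpa [nxt] using H1
  | succ k ih =>
      intro hk h g m b H
      obtain ⟨h', hh, y, hok, H1, _⟩ := cell_fwd hk H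
      have hy : y.2.2.2 = false := by rw [hok.1, hz (k + 1) hk]; simp
      rw [hy] at H1
      have H2 : RN (dev G L) h' (w.map some ++ none :: z) (W t γ m (upd t y b))
          (seg w.length (Function.update g (k + 1) y) (k + 1) ++ (seg w.length f 0 ++ rest)) := by
        simpa [nxt] using H1
      obtain ⟨h'', hh', g', b', h1, h2, h3, h4, h5⟩ := ih (by omega) h' _ m _ H2
      have hgk : g' (k + 1) = y := by rw [h1 (k + 1) (by omega), Function.update_self]
      refine ⟨h'', by omega, g', b', ?_, ?_, ?_, ?_, h5⟩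
      · intro l hl
        rw [h1 l (by omega), Function.update_of_ne (by omega)]
      · intro l hl
        rcases Nat.lt_or_eq_of_le hl with h6 | rfl
        · exact h2 l (by omega)
        · rw [hgk]; exact hok
      · intro ht; rw [h3 ht]; simp [upd, ht]
      · intro ht
        have hyi : y.2.2.1 = decide (k + 1 = i) := by
          rw [← hi ht (k + 1) hk]
          rcases hok.2 with h1 | h1 | h1
          · exact h1.2.2
          · exact h1.2.2
          · exact absurd h1.1 ht
        constructor
        · intro h0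
          rcases Nat.lt_or_eq_of_le h0 with h6 | rfl
          · exact (h4 ht).1 (by omega)
          · rw [(h4 ht).2 (by omega), hgk]
            simp only [decide_true] at hyi
            simp [upd, ht, hyi]
        · intro h0
          have : decide (k + 1 = i) = false := by simp; omega
          rw [this] at hyi
          rw [(h4 ht).2 (by omega)]
          simp [upd, ht, hyi]

theorem mark_fwd {w : List T} {z : List (Option T)} {f : ℕ → Cell} {rest : List Cell} {γ : Gam V T L}
    (hz : ∀ l ≤ w.length, (f l).2.2.2 = decide (l = 0)) :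
    ∀ (k : ℕ), k ≤ w.length → ∀ (h : ℕ) (g : ℕ → Cell) (b : Bool), (∀ l, k < l → l ≤ w.length → okc 2 (f l) (g l)) →
      RN (dev G L) h (w.map some ++ none :: z) (W 2 γ false b) (seg w.length g (k + 1) ++ (seg w.length f 0 ++ rest)) →
      ∀ j ≤ k, (f j).2.1 = true → ∃ h', h' < h ∧ ∃ g' : ℕ → Cell,
        (∀ l ≤ w.length, (g' l).1 = (f l).1 ∧ (g' l).2.2.1 = decide (l = j) ∧ (g' l).2.2.2 = decide (l = 0)) ∧
        RN (dev G L) h' (w.map some ++ none :: z) (NB γ true (f j).1) (seg w.length g' 0 ++ (seg w.length f 0 ++ rest)) := by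
  have h2 : ∀ x y : Cell, okc 2 x y → y.1 = x.1 ∧ y.2.2.1 = false ∧ y.2.2.2 = x.2.2.2 := by
    intro x y h
    rcases h.2 with h1 | h1 | h1
    · exact absurd h1.1 (by decide)
    · exact absurd h1.1 (by decide)
    · exact ⟨h1.2.1, h1.2.2.2, h.1⟩
  intro k
  induction k with
  | zero =>
      intro hk h g b hg H j hj hu
      obtain rfl : j = 0 := by omega
      obtain ⟨h', hh, y, hok, _, H1⟩ := cell_fwd hk H
      have H1 := H1 rfl rfl hu
      have hy := h2 _ _ hok
      have hyz : y.2.2.2 = true := by rw [hy.2.2, hz 0 hk]; simp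
      rw [hyz, hy.1] at H1
      refine ⟨h', hh, _, ?_, by simpa [nxt] using H1⟩
      intro l hl
      rcases Nat.eq_zero_or_pos l with rfl | hl0
      · simp
      · rw [Function.update_of_ne (by omega)]
        have h3 := h2 _ _ (hg l hl0 hl)
        exact ⟨h3.1, by rw [h3.2.1]; simp; omega, by rw [h3.2.2, hz l hl]⟩
  | succ k ih =>
      intro hk h g b hg H j hj hu
      obtain ⟨h', hh, y, hok, H0, H1⟩ := cell_fwd hk H
      have hy := h2 _ _ hok
      have hyz : y.2.2.2 = false := by rw [hy.2.2, hz (k + 1) hk]; simp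
      rcases Nat.lt_or_eq_of_le hj with hj' | rfl
      · rw [hyz] at H0
        have H2 : RN (dev G L) h' (w.map some ++ none :: z) (W 2 γ false (upd 2 y b))
            (seg w.length (Function.update g (k + 1) y) (k + 1) ++ (seg w.length f 0 ++ rest)) := by
          simpa [nxt] using H0
        obtain ⟨h'', hh', g', h5, h6⟩ := ih (by omega) h' _ _ (by
          intro l hl1 hl2
          rcases Nat.lt_or_eq_of_le (show k + 1 ≤ l from hl1) with h6 | rfl
          · rw [Function.update_of_ne (by omega)]; exact hg l h6 hl2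
          · rw [Function.update_self]; exact hok) H2 j (by omega) hu
        exact ⟨h'', by omega, g', h5, h6⟩
      · have H1 := H1 rfl rfl hu
        rw [hyz, hy.1] at H1
        have H2 : RN (dev G L) h' (w.map some ++ none :: z) (W 2 γ true (f (k + 1)).1)
            (seg w.length (Function.update g (k + 1) ((f (k + 1)).1, y.2.1, true, false)) (k + 1) ++
              (seg w.length f 0 ++ rest)) := by
          simpa [nxt] using H1
        obtain ⟨h'', hh', g', b', h5, h6, h7, _, h8⟩ := run_fwd (i := 0) hz (fun ht => absurd rfl ht) k (by omega) h' _ _ _ H2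
        rw [h7 rfl] at h8
        refine ⟨h'', by omega, g', ?_, by simpa using h8⟩
        intro l hl
        rcases lt_trichotomy l (k + 1) with h9 | rfl | h9
        · have h3 := h2 _ _ (h6 l (by omega))
          exact ⟨h3.1, by rw [h3.2.1]; simp; omega, by rw [h3.2.2, hz l hl]⟩
        · rw [h5 (k + 1) (by omega), Function.update_self]
          simp
        · rw [h5 l (by omega), Function.update_of_ne (by omega)]
          have h3 := h2 _ _ (hg l h9 hl)
          exact ⟨h3.1, by rw [h3.2.1]; simp; omega, by rw [h3.2.2, hz l hl]⟩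

theorem seg_cel {n : ℕ} {g : ℕ → Cell} {v : Finset ℕ} {i : ℕ}
    (hg : ∀ l ≤ n, (g l).1 = decide (l ∈ v) ∧ (g l).2.2.1 = decide (l = i) ∧ (g l).2.2.2 = decide (l = 0)) :
    ∃ u : Finset ℕ, seg n g 0 = seg n (cel v u i) 0 ∧ ∀ l ≤ n, (g l).2.1 = decide (l ∈ u) := by
  have h1 : ∀ l ≤ n, (g l).2.1 = decide (l ∈ (Finset.range (n + 1)).filter fun l => (g l).2.1 = true) := by
    intro l hl
    have : l ∈ Finset.range (n + 1) := Finset.mem_range.mpr (by omega)
    cases h : (g l).2.1 <;> simp [h, hl]
  refine ⟨(Finset.range (n + 1)).filter fun l => (g l).2.1 = true, ?_, h1⟩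
  apply seg_congr
  intro l _ hl
  have h2 := hg l hl
  have h3 := h1 l hl
  unfold cel
  rw [← h3, ← h2.1, ← h2.2.1, ← h2.2.2]

theorem Str_local {w : List T} {C : V → ℕ → Finset ℕ → Prop} {v : Finset ℕ} :
    ∀ (γ : List (V ⊕ T)) (i : ℕ), i ≤ w.length → Str C w γ i v → Str C w γ i (v ∩ Finset.Icc i w.length)
  | [], i => fun hi H => Finset.mem_inter.mpr ⟨H, Finset.mem_Icc.mpr ⟨le_rfl, hi⟩⟩
  | Sum.inr a :: γ, i => fun hi H => by
      have h1 : i < w.length := by
        have := H.1
        rw [List.getElem?_eq_some_iff] at this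
        exact this.1
      exact ⟨H.1, Str_vmono (Finset.inter_subset_inter_left (Finset.Icc_subset_Icc_left (Nat.le_succ i))) γ _
        (Str_local γ (i + 1) h1 H.2)⟩
  | Sum.inl B :: γ, i => fun hi ⟨u, hu, h1, h2⟩ => ⟨u, hu, h1, fun j hj => by
      have hj' := Finset.mem_Icc.mp (hu hj)
      exact Str_vmono (Finset.inter_subset_inter_left (Finset.Icc_subset_Icc_left hj'.1)) γ _
        (Str_local γ j hj'.2 (h2 j hj))⟩

theorem Cert_local {w : List T} {h i : ℕ} {B : V} {v : Finset ℕ} (hi : i ≤ w.length) (H : Cert G w h B i v) :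
    Cert G w h B i (v ∩ Finset.Icc i w.length) := by
  rcases h with _ | h
  · exact H.elim
  · exact Cert_map (fun r hr => Str_local r i hi hr) H

/-- certified with some depth -/
def Win (G : ACFG V T) (w : List T) (γ : List (V ⊕ T)) (i : ℕ) (v : Finset ℕ) : Prop :=
  ∃ m, Str (Cert G w m) w γ i v

theorem main_fwd (hL : ∀ B, ∀ r ∈ G.prod B, r.length ≤ L) {w : List T} {z : List (Option T)} : ∀ h : ℕ,
    (∀ (γ : Gam V T L) (v u : Finset ℕ) (i : ℕ) (rest : List Cell), i ≤ w.length →
      RN (dev G L) h (w.map some ++ none :: z) (NE γ (decide (i ∈ u))) (seg w.length (cel v u i) 0 ++ rest) →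
      Win G w γ.1 i v) ∧
    (∀ (γ : Gam V T L) (f : ℕ → Cell) (v : Finset ℕ) (j : ℕ) (rest : List Cell), j ≤ w.length →
      (∀ l ≤ w.length, (f l).1 = decide (l ∈ v) ∧ (f l).2.2.1 = decide (l = j) ∧ (f l).2.2.2 = decide (l = 0)) →
      RN (dev G L) h (w.map some ++ none :: z) (NB γ true (decide (j ∈ v))) (seg w.length f 0 ++ rest) →
      Win G w γ.1 j v) := by
  intro h
  induction h using Nat.strong_induction_on with
  | _ h IH =>
  refine ⟨?_, ?_⟩
  · intro γ v u i rest hi H
    obtain ⟨h1, hh1, ⟨⟨q0, o0⟩, hne⟩, H1⟩ := un_inv (P := dev G L) (q := NE γ (decide (i ∈ u))) (by simp [dev, unv]) H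
    simp only [dev, stp, Set.mem_ofPred_eq] at hne
    obtain ⟨X, γ', hγ, _⟩ := hne
    have hfz : ∀ l ≤ w.length, (cel v u i l).2.2.2 = decide (l = 0) := fun l _ => rfl
    have hβ : ∀ j ≤ w.length, j ∈ u → Win G w γ'.1 j v := by
      intro j hj hju
      have H2 := H1 (W 2 γ' false false) none (by
        simp only [dev, stp, Set.mem_ofPred_eq]
        exact ⟨X, γ', hγ, Or.inr rfl⟩)
      have H3 : RN (dev G L) h1 (w.map some ++ none :: z) (W 2 γ' false false)
          (seg w.length (cel v u i) (w.length + 1) ++ (seg w.length (cel v u i) 0 ++ rest)) := by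
        rw [seg_nil]; simpa using H2
      obtain ⟨h2, hh2, g', h3, h4⟩ := mark_fwd hfz w.length le_rfl h1 _ _
        (fun l hl1 hl2 => absurd hl1 (by omega)) H3 j hj (by simp [cel, hju])
      exact (IH h2 (by omega)).2 γ' g' v j _ hj h3 h4
    have hα : RN (dev G L) h1 (w.map some ++ none :: z) (alp X (decide (i ∈ u))) (seg w.length (cel v u i) 0 ++ rest) := by
      have H2 := H1 (alp X (decide (i ∈ u))) none (by
        simp only [dev, stp, Set.mem_ofPred_eq]
        exact ⟨X, γ', hγ, Or.inl rfl⟩)
      simpa using H2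
    rw [hγ]
    rcases X with B | a
    · -- a variable
      simp only [alp] at hα
      have hr : ∀ (h2 : ℕ), h2 < h → ∀ r : Gam V T L, RN (dev G L) h2 (w.map some ++ none :: z)
          (if r.1 = [] then (if decide (i ∈ u) = true then acc else dead) else W 1 r false false)
          (seg w.length (cel v u i) 0 ++ rest) → Win G w r.1 i u := by
        intro h2 hh2 r H2
        by_cases hr : r.1 = []
        · rw [if_pos hr] at H2
          by_cases hiu : i ∈ u
          · rw [hr]; exact ⟨0, hiu⟩
          · rw [if_neg (by simpa using hiu)] at H2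
            exact (dead_fwd H2).elim
        · rw [if_neg hr] at H2
          have H3 : RN (dev G L) h2 (w.map some ++ none :: z) (W 1 r false false)
              (seg w.length (cel v u i) (w.length + 1) ++ (seg w.length (cel v u i) 0 ++ rest)) := by
            rw [seg_nil]; simpa using H2
          obtain ⟨h3, hh3, g', b', _, h4, _, h5, h6⟩ :=
            run_fwd (i := i) hfz (fun _ l _ => rfl) w.length le_rfl h2 _ _ _ H3
          have h7 : ∀ l ≤ w.length, (g' l).1 = decide (l ∈ u) ∧ (g' l).2.2.1 = decide (l = i) ∧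
              (g' l).2.2.2 = decide (l = 0) := by
            intro l hl
            have h8 := h4 l hl
            rcases h8.2 with h9 | h9 | h9
            · exact absurd h9.1 (by decide)
            · exact ⟨h9.2.1, h9.2.2, h8.1⟩
            · exact absurd h9.1 (by decide)
          obtain ⟨u', h8, h9⟩ := seg_cel h7
          have h10 := (h5 (by decide)).1 hi
          rw [h9 i hi] at h10
          rw [h8, h10, if_neg (by decide)] at h6
          exact (IH h3 (by omega)).1 r u u' i _ hi h6
      have hC : ∃ m, Cert G w m B i u := by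
        by_cases hB : G.univ B
        · obtain ⟨h2, hh2, ⟨⟨q0, o0⟩, hne⟩, H2⟩ := un_inv (P := dev G L) (q := A B (decide (i ∈ u)))
            (by simpa [dev, unv] using hB) hα
          simp only [dev, stp, Set.mem_ofPred_eq] at hne
          obtain ⟨r0, hr0, _⟩ := hne
          have h3 : ∀ r ∈ G.prod B, ∃ m, Str (Cert G w m) w r i u := by
            intro r hrB
            have H3 := H2 (if r = [] then (if decide (i ∈ u) = true then acc else dead)
              else W 1 ⟨r, hL B r hrB⟩ false false) none (by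
                simp only [dev, stp, Set.mem_ofPred_eq]
                exact ⟨⟨r, hL B r hrB⟩, hrB, rfl⟩)
            exact hr h2 (by omega) ⟨r, hL B r hrB⟩ (by simpa using H3)
          choose! gm hgm using h3
          refine ⟨(G.prod B).sup gm + 1, Or.inr ⟨hB, ⟨r0.1, hr0⟩, fun r hrB => ?_⟩⟩
          exact Str_mono (fun B' j u' hB' => Cert_mono (Finset.le_sup hrB) hB') r i _ (hgm r hrB)
        · obtain ⟨h2, hh2, q', o, hq, H2⟩ := ex_inv (P := dev G L) (q := A B (decide (i ∈ u)))
            (by simpa [dev, unv] using hB) (by intro Y; rfl) rfl hα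
          simp only [dev, stp, Set.mem_ofPred_eq, Prod.mk.injEq] at hq
          obtain ⟨r, hrB, rfl, rfl⟩ := hq
          obtain ⟨m, hm⟩ := hr h2 (by omega) r (by simpa using H2)
          exact ⟨m + 1, Or.inl ⟨hB, r.1, hrB, hm⟩⟩
      obtain ⟨m, hm⟩ := hC
      have h3 : ∀ j ∈ u ∩ Finset.Icc i w.length, ∃ m, Str (Cert G w m) w γ'.1 j v := by
        intro j hj
        rw [Finset.mem_inter, Finset.mem_Icc] at hj
        exact hβ j hj.2.2 hj.1
      choose! gm hgm using h3
      refine ⟨max m ((u ∩ Finset.Icc i w.length).sup gm), u ∩ Finset.Icc i w.length, Finset.inter_subset_right,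
        Cert_mono (le_max_left _ _) (Cert_local hi hm), fun j hj => ?_⟩
      exact Str_mono (fun B' k u' hB' => Cert_mono ((Finset.le_sup hj).trans (le_max_right _ _)) hB') _ j _ (hgm j hj)
    · -- a terminal
      simp only [alp] at hα
      obtain ⟨k, Y, Y', ⟨h2, h3⟩, h4, h5, h6⟩ := chk_fwd w h1 z a _ hα
      have hk : k < w.length := by
        rw [List.getElem?_eq_some_iff] at h4
        exact h4.1
      rw [List.getElem?_append_left (by rw [seg_length]; omega), seg_getElem (by omega), Nat.zero_add] at h2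
      rw [List.getElem?_append_left (by rw [seg_length]; omega), seg_getElem (by omega), Nat.zero_add] at h5
      obtain rfl := Option.some.inj h2
      obtain rfl := Option.some.inj h5
      simp only [cel, decide_eq_true_eq] at h3 h6
      subst h3
      obtain ⟨m, hm⟩ := hβ (k + 1) (by omega) h6
      exact ⟨m, h4, hm⟩
  · intro γ f v j rest hj hf H
    obtain ⟨h1, hh1, q', o, hq, H1⟩ := ex_inv (P := dev G L) (q := NB γ true (decide (j ∈ v))) (by simp [dev, unv])
      (by intro Y; rfl) rfl H
    simp only [dev, stp, Set.mem_ofPred_eq, Prod.mk.injEq, Bool.true_eq_false, if_false] at hq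
    obtain ⟨rfl, rfl⟩ := hq
    simp only [Option.toList_none, List.nil_append] at H1
    by_cases hγ : γ.1 = []
    · rw [if_pos hγ] at H1
      by_cases hjv : j ∈ v
      · rw [hγ]; exact ⟨0, hjv⟩
      · rw [if_neg (by simpa using hjv)] at H1
        exact (dead_fwd H1).elim
    · rw [if_neg hγ] at H1
      have H3 : RN (dev G L) h1 (w.map some ++ none :: z) (W 0 γ false false)
          (seg w.length f (w.length + 1) ++ (seg w.length f 0 ++ rest)) := by
        rw [seg_nil]; simpa using H1
      obtain ⟨h3, hh3, g', b', _, h4, _, h5, h6⟩ :=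
        run_fwd (i := j) (fun l hl => (hf l hl).2.2) (fun _ l hl => (hf l hl).2.1) w.length le_rfl h1 _ _ _ H3
      have h7 : ∀ l ≤ w.length, (g' l).1 = decide (l ∈ v) ∧ (g' l).2.2.1 = decide (l = j) ∧
          (g' l).2.2.2 = decide (l = 0) := by
        intro l hl
        have h8 := h4 l hl
        have h8' := hf l hl
        rcases h8.2 with h9 | h9 | h9
        · exact ⟨h9.2.1.trans h8'.1, h9.2.2.trans h8'.2.1, h8.1.trans h8'.2.2⟩
        · exact absurd h9.1 (by decide)
        · exact absurd h9.1 (by decide)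
      obtain ⟨u', h8, h9⟩ := seg_cel h7
      have h10 := (h5 (by decide)).1 hj
      rw [h9 j hj] at h10
      rw [h8, h10, if_neg (by decide)] at h6
      exact (IH h3 (by omega)).1 γ v u' j _ hj h6

end Pool.Agent.H97.LM
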