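import Pool.Agent.H97.LM.Cer

/-! Basic facts on certificates: monotonicity, soundness, leaves, null certificates. -/

set_option autoImplicit false
set_option linter.unusedVariables false

namespace Pool.Agent.H97.LM

variable {V T : Type}

theorem Str_mono {C C' : V → ℕ → Finset ℕ → Prop} {w : List T} (h : ∀ B i u, C B i u → C' B i u) :
    ∀ (γ : List (V ⊕ T)) (i : ℕ) (v : Finset ℕ), Str C w γ i v → Str C' w γ i v
  | [], _, _ => fun H => H
  | Sum.inr a :: γ, i, v => fun H => ⟨H.1, Str_mono h γ (i + 1) v H.2⟩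
  | Sum.inl B :: γ, i, v => fun ⟨u, hu, h1, h2⟩ => ⟨u, hu, h _ _ _ h1, fun j hj => Str_mono h γ j v (h2 j hj)⟩

theorem Str_vmono {C : V → ℕ → Finset ℕ → Prop} {w : List T} {v v' : Finset ℕ} (h : v ⊆ v') :
    ∀ (γ : List (V ⊕ T)) (i : ℕ), Str C w γ i v → Str C w γ i v'
  | [], _ => fun H => h H
  | Sum.inr a :: γ, i => fun H => ⟨H.1, Str_vmono h γ (i + 1) H.2⟩
  | Sum.inl B :: γ, i => fun ⟨u, hu, h1, h2⟩ => ⟨u, hu, h1, fun j hj => Str_vmono h γ j (h2 j hj)⟩

theorem Cert_unfold (G : ACFG V T) (w : List T) (h : ℕ) (A : V) (i : ℕ) (v : Finset ℕ) :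
    Cert G w (h + 1) A i v ↔ (¬ G.univ A ∧ ∃ r ∈ G.prod A, Str (Cert G w h) w r i v) ∨
      (G.univ A ∧ (G.prod A).Nonempty ∧ ∀ r ∈ G.prod A, Str (Cert G w h) w r i v) := Iff.rfl

/-- a map of the conditions on the right-hand sides gives a map of certificates -/
theorem Cert_map {G : ACFG V T} {w : List T} {h h' : ℕ} {A : V} {i i' : ℕ} {v v' : Finset ℕ}
    (H : ∀ r, Str (Cert G w h) w r i v → Str (Cert G w h') w r i' v') (hc : Cert G w (h + 1) A i v) :
    Cert G w (h' + 1) A i' v' := by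
  rcases hc with ⟨h1, r, hr, h2⟩ | ⟨h1, h2, h3⟩
  · exact Or.inl ⟨h1, r, hr, H r h2⟩
  · exact Or.inr ⟨h1, h2, fun r hr => H r (h3 r hr)⟩

theorem Cert_vmono {G : ACFG V T} {w : List T} {v v' : Finset ℕ} (hv : v ⊆ v') :
    ∀ (h : ℕ) (A : V) (i : ℕ), Cert G w h A i v → Cert G w h A i v'
  | 0, _, _ => fun H => H
  | h + 1, A, i => fun H => Cert_map (fun r hr => Str_vmono hv r i hr) H

theorem Cert_succ {G : ACFG V T} {w : List T} :
    ∀ (h : ℕ) (A : V) (i : ℕ) (v : Finset ℕ), Cert G w h A i v → Cert G w (h + 1) A i v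
  | 0, _, _, _ => fun H => H.elim
  | h + 1, A, i, v => fun H => Cert_map (fun r hr => Str_mono (fun B j u hB => Cert_succ h B j u hB) r i v hr) H

theorem Cert_mono {G : ACFG V T} {w : List T} {h h' : ℕ} (hh : h ≤ h') {A : V} {i : ℕ} {v : Finset ℕ}
    (H : Cert G w h A i v) : Cert G w h' A i v := by
  induction hh with
  | refl => exact H
  | step _ ih => exact Cert_succ _ _ _ _ ih

theorem take_succ_map (w : List T) (i : ℕ) (a : T) (h : w[i]? = some a) :
    ((w.take (i + 1)).map Sum.inr : List (V ⊕ T)) = (w.take i).map Sum.inr ++ [Sum.inr a] := by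
  rw [List.take_add_one, h]
  simp

/-- soundness -/
theorem Str_sound {G : ACFG V T} {w : List T} {C : V → ℕ → Finset ℕ → Prop}
    (hC : ∀ A i v δ, C A i v → (∀ j ∈ v, Der G w ((w.take j).map Sum.inr ++ δ)) →
      Der G w ((w.take i).map Sum.inr ++ Sum.inl A :: δ)) :
    ∀ (γ : List (V ⊕ T)) (i : ℕ) (v : Finset ℕ) (δ : List (V ⊕ T)), Str C w γ i v →
      (∀ j ∈ v, Der G w ((w.take j).map Sum.inr ++ δ)) → Der G w ((w.take i).map Sum.inr ++ (γ ++ δ))
  | [], i, v, δ => fun H hv => by simpa using hv i H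
  | Sum.inr a :: γ, i, v, δ => fun H hv => by
      have h1 := Str_sound hC γ (i + 1) v δ H.2 hv
      rw [take_succ_map w i a H.1] at h1
      simpa using h1
  | Sum.inl B :: γ, i, v, δ => fun ⟨u, _, h1, h2⟩ hv => by
      have h3 := hC B i u (γ ++ δ) h1 (fun j hj => Str_sound hC γ j v δ (h2 j hj) hv)
      simpa using h3

theorem Cert_sound {G : ACFG V T} {w : List T} :
    ∀ (h : ℕ) (A : V) (i : ℕ) (v : Finset ℕ) (δ : List (V ⊕ T)), Cert G w h A i v →
      (∀ j ∈ v, Der G w ((w.take j).map Sum.inr ++ δ)) → Der G w ((w.take i).map Sum.inr ++ Sum.inl A :: δ)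
  | 0, _, _, _, _ => fun H => H.elim
  | h + 1, A, i, v, δ => fun H hv => by
      rcases H with ⟨h1, r, hr, h2⟩ | ⟨h1, h2, h3⟩
      · exact Der.ex _ A δ r h1 hr (Str_sound (fun A i v δ => Cert_sound h A i v δ) r i v δ h2 hv)
      · exact Der.all _ A δ h1 h2 (fun r hr => Str_sound (fun A i v δ => Cert_sound h A i v δ) r i v δ (h3 r hr) hv)

/-- every certificate ends in `v`, to the right of its position -/
theorem Str_leaf {w : List T} {C : V → ℕ → Finset ℕ → Prop} (hC : ∀ A i v, C A i v → ∃ x ∈ v, i ≤ x) :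
    ∀ (γ : List (V ⊕ T)) (i : ℕ) (v : Finset ℕ), Str C w γ i v → ∃ x ∈ v, i ≤ x
  | [], i, v => fun H => ⟨i, H, le_rfl⟩
  | Sum.inr a :: γ, i, v => fun H => by
      obtain ⟨x, hx, h⟩ := Str_leaf hC γ (i + 1) v H.2
      exact ⟨x, hx, by omega⟩
  | Sum.inl B :: γ, i, v => fun ⟨u, _, h1, h2⟩ => by
      obtain ⟨y, hy, h3⟩ := hC B i u h1
      obtain ⟨x, hx, h⟩ := Str_leaf hC γ y v (h2 y hy)
      exact ⟨x, hx, by omega⟩

theorem Cert_leaf {G : ACFG V T} {w : List T} :
    ∀ (h : ℕ) (A : V) (i : ℕ) (v : Finset ℕ), Cert G w h A i v → ∃ x ∈ v, i ≤ x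
  | 0, _, _, _ => fun H => H.elim
  | h + 1, A, i, v => fun H => by
      rcases H with ⟨h1, r, hr, h2⟩ | ⟨h1, ⟨r, hr⟩, h3⟩
      · exact Str_leaf (fun A i v => Cert_leaf h A i v) r i v h2
      · exact Str_leaf (fun A i v => Cert_leaf h A i v) r i v (h3 r hr)

/-- a certificate at the last position of `v` is a null certificate -/
theorem Str_null {w : List T} {C : V → ℕ → Finset ℕ → Prop} (hl : ∀ A i v, C A i v → ∃ x ∈ v, i ≤ x)
    (hC : ∀ A i v, C A i v → (∀ x ∈ v, x ≤ i) → ∀ k ≤ w.length, C A k {k}) :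
    ∀ (γ : List (V ⊕ T)) (i : ℕ) (v : Finset ℕ), Str C w γ i v → (∀ x ∈ v, x ≤ i) → ∀ k ≤ w.length, Str C w γ k {k}
  | [], i, v => fun H hv k hk => by simp [Str]
  | Sum.inr a :: γ, i, v => fun H hv k hk => by
      obtain ⟨x, hx, h⟩ := Str_leaf hl γ (i + 1) v H.2
      have := hv x hx
      omega
  | Sum.inl B :: γ, i, v => fun ⟨u, hu, h1, h2⟩ hv k hk => by
      have hui : ∀ x ∈ u, x ≤ i := by
        intro y hy
        obtain ⟨x, hx, h⟩ := Str_leaf hl γ y v (h2 y hy)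
        exact h.trans (hv x hx)
      obtain ⟨y, hy, h3⟩ := hl B i u h1
      have hyi : y = i := le_antisymm (hui y hy) h3
      refine ⟨{k}, ?_, hC B i u h1 hui k hk, ?_⟩
      · intro x hx
        rw [Finset.mem_singleton] at hx
        subst hx
        simpa using hk
      · intro j hj
        rw [Finset.mem_singleton] at hj
        subst hj
        exact Str_null hl hC γ i v (hyi ▸ h2 y hy) hv j hk

theorem Cert_null {G : ACFG V T} {w : List T} :
    ∀ (h : ℕ) (A : V) (i : ℕ) (v : Finset ℕ), Cert G w h A i v → (∀ x ∈ v, x ≤ i) → ∀ k ≤ w.length, Cert G w h A k {k}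
  | 0, _, _, _ => fun H => H.elim
  | h + 1, A, i, v => fun H hv k hk =>
      Cert_map (fun r hr => Str_null (fun A i v => Cert_leaf h A i v)
        (fun A i v hc hx k hk => Cert_null h A i v hc hx k hk) r i v hr hv k hk) H

end Pool.Agent.H97.LM
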