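import Pool.Agent.H97.LM.Bwd

/-! Leftmost alternating context-free grammars and leftmost alternating context-sensitive grammars agree up to polynomial
padding. -/

set_option autoImplicit false
set_option linter.unusedVariables false
set_option linter.unusedSectionVars false

namespace Pool.Agent.H97.LM

open St

variable {V T : Type} {G : ACFG V T} {L : ℕ}

def Good (f : Bool) (P : List Cell) : Prop :=
  (f = true ∧ P = []) ∨ (f = false ∧ ∃ A c, P = A ++ [c] ∧ c.1 = true ∧ c.2.2 = (false, false) ∧
    ∀ d ∈ A, d.1 = false ∧ d.2.2 = (false, false))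

theorem ini_fwd {z : List (Option T)} : ∀ (h : ℕ) (f : Bool) (P : List Cell), Good f P → RN (dev G L) h z (ini f) P →
    ∃ h' u f' P', Good f' P' ∧ RN (dev G L) h' z (iniD u) ((f', u, true, true) :: P') := by
  intro h
  induction h using Nat.strong_induction_on with
  | _ h IH =>
  intro f P hP H
  obtain ⟨h1, hh1, q', o, hq, H1⟩ := ex_inv (P := dev G L) (q := ini f) (by simp [dev, unv]) (by intro Y; rfl) rfl H
  simp only [dev, stp, Set.mem_ofPred_eq, Prod.mk.injEq] at hq
  obtain ⟨u, ⟨rfl, rfl⟩ | ⟨rfl, rfl⟩⟩ := hq
  · refine IH h1 hh1 false _ ?_ H1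
    refine Or.inr ⟨rfl, ?_⟩
    rcases hP with ⟨rfl, rfl⟩ | ⟨rfl, A, c, rfl, h2, h3, h4⟩
    · exact ⟨[], _, rfl, rfl, rfl, by simp⟩
    · refine ⟨(false, u, false, false) :: A, c, rfl, h2, h3, ?_⟩
      intro d hd
      rcases List.mem_cons.mp hd with rfl | hd
      · exact ⟨rfl, rfl⟩
      · exact h4 d hd
  · exact ⟨h1, u, f, P, hP, H1⟩

theorem block_fwd {w : List T} {f u : Bool} {P : List Cell} (hP : Good f P) {A' B' : List Cell} {c' : Cell}
    (hS : (f, u, true, true) :: P = A' ++ c' :: B') (hA : A'.length = w.length) (hA' : ∀ d ∈ A', d.1 = false)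
    (hc : c'.1 = true) :
    ∃ v : Finset ℕ, (f, u, true, true) :: P = seg w.length (cel {w.length} v 0) 0 ∧ u = decide (0 ∈ v) := by
  set S : List Cell := (f, u, true, true) :: P with hSd
  have key : S.length = w.length + 1 ∧ ∀ l ≤ w.length, ∃ c, S[l]? = some c ∧
      c.1 = decide (l ∈ ({w.length} : Finset ℕ)) ∧ c.2.2.1 = decide (l = 0) ∧ c.2.2.2 = decide (l = 0) := by
    rcases hP with ⟨rfl, rfl⟩ | ⟨rfl, A, c, rfl, h2, h3, h4⟩
    · rcases A' with _ | ⟨d, A'⟩
      · have h0 : w.length = 0 := hA.symm
        refine ⟨by rw [h0]; simp [hSd], ?_⟩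
        intro l hl
        obtain rfl : l = 0 := by omega
        exact ⟨(true, u, true, true), by simp [hSd], by simp [h0], rfl, rfl⟩
      · exfalso
        have h9 : S[0]? = some d := by rw [hS]; rfl
        have h10 : S[0]? = some (true, u, true, true) := by simp [hSd]
        rw [h9] at h10
        have := hA' d (by simp)
        rw [Option.some.inj h10] at this
        simp at this
    · have hlen : A.length + 1 = w.length := by
        by_contra hne
        rcases Nat.lt_or_gt_of_ne hne with hlt | hlt
        · -- the cell `c` lies in `A'`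
          have h5 : S[A.length + 1]? = some c := by simp [hSd]
          rw [hS, List.getElem?_append_left (by omega)] at h5
          have := hA' c (List.mem_of_getElem? h5)
          rw [h2] at this
          exact absurd this (by decide)
        · have h5 : S[w.length]? = some c' := by
            rw [hS, List.getElem?_append_right (by omega), hA]; simp
          have h6 : S = ((false, u, true, true) :: A) ++ [c] := by simp [hSd]
          rw [h6, List.getElem?_append_left (by simp; omega)] at h5
          have h7 := List.mem_of_getElem? h5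
          have h8 : c'.1 = false := by
            rcases List.mem_cons.mp h7 with h9 | h9
            · rw [h9]
            · exact (h4 c' h9).1
          rw [hc] at h8
          exact absurd h8 (by decide)
      refine ⟨by simp [hSd]; omega, ?_⟩
      intro l hl
      rcases Nat.eq_zero_or_pos l with rfl | hl0
      · exact ⟨(false, u, true, true), by simp [hSd], by simp; omega, rfl, rfl⟩
      · rcases Nat.lt_or_eq_of_le hl with h5 | rfl
        · have h6 : S = ((false, u, true, true) :: A) ++ [c] := by simp [hSd]
          have h7 : ∃ d, S[l]? = some d ∧ d ∈ A := by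
            obtain ⟨l', rfl⟩ : ∃ l', l = l' + 1 := ⟨l - 1, by omega⟩
            have h8 : l' < A.length := by omega
            refine ⟨A[l'], ?_, List.getElem_mem h8⟩
            rw [h6, List.cons_append, List.getElem?_cons_succ, List.getElem?_append_left h8, List.getElem?_eq_getElem h8]
          obtain ⟨d, h7, h8⟩ := h7
          have h9 := h4 d h8
          refine ⟨d, h7, ?_, ?_, ?_⟩
          · rw [h9.1]; simp; omega
          · rw [h9.2]; simp; omega
          · rw [h9.2]; simp; omega
        · refine ⟨c, by rw [← hlen]; simp [hSd], ?_, ?_, ?_⟩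
          · rw [h2]; simp
          · rw [h3]; exact (decide_eq_false (by omega)).symm
          · rw [h3]; exact (decide_eq_false (by omega)).symm
  obtain ⟨h1, h2⟩ := key
  have h3 : seg w.length (fun l => (S[l]?).getD default) 0 = S := by
    apply List.ext_getElem?
    intro l
    rcases Nat.lt_or_ge w.length l with h4 | h4
    · rw [List.getElem?_eq_none (by rw [seg_length]; omega), List.getElem?_eq_none (by omega)]
    · rw [seg_getElem (by omega), Nat.zero_add]
      obtain ⟨c, h5, _⟩ := h2 l h4
      rw [h5]; rfl
  obtain ⟨v, h4, h5⟩ := seg_cel (n := w.length) (g := fun l => (S[l]?).getD default) (v := {w.length}) (i := 0) (by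
    intro l hl
    obtain ⟨c, h5, h6⟩ := h2 l hl
    simp only [h5, Option.getD_some]
    exact h6)
  refine ⟨v, by rw [← h3, h4], ?_⟩
  rw [← h5 0 (Nat.zero_le _)]
  simp [hSd]

theorem dev_fwd (hL : ∀ B, ∀ r ∈ G.prod B, r.length ≤ L) (hL1 : 1 ≤ L) {w : List T} {z : List (Option T)} {h : ℕ}
    (H : RN (dev G L) h (w.map some ++ none :: z) (ini true) []) : Der G w [Sum.inl G.start] := by
  obtain ⟨h1, u, f, P, hP, H1⟩ := ini_fwd h true [] (Or.inl ⟨rfl, rfl⟩) H
  obtain ⟨h2, _, _, H2⟩ := un_inv (P := dev G L) (q := iniD u) (by simp [dev, unv]) H1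
  obtain ⟨A', c', B', h3, h4, h5, h6⟩ := len_fwd w h2 z _ (H2 len none (by simp [dev, stp]))
  obtain ⟨v, h7, h8⟩ := block_fwd hP (by simpa using h3) h4 h5 h6
  have H3 := H2 (NE ⟨[Sum.inl G.start], hL1⟩ u) none (by
    simp only [dev, stp, Set.mem_ofPred_eq]
    exact Or.inr ⟨⟨[Sum.inl G.start], hL1⟩, rfl, rfl⟩)
  rw [h7, h8] at H3
  obtain ⟨m, u', _, hm, hu⟩ := (main_fwd hL h2).1 ⟨[Sum.inl G.start], hL1⟩ {w.length} v 0 [] (Nat.zero_le _)
    (by simpa using H3)
  exact Cert.der (Cert_vmono (fun j hj => hu j hj) m _ 0 hm)

variable [Finite V] [Finite T]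

theorem ini_bwd {w : List T} {z : List (Option T)} {u : Finset ℕ}
    (H : ∃ h, RN (dev G L) h z (iniD (decide (0 ∈ u))) (seg w.length (cel {w.length} u 0) 0)) :
    ∀ k ≤ w.length, ∃ h, RN (dev G L) h z (ini (decide (k = w.length))) (seg w.length (cel {w.length} u 0) (k + 1)) := by
  intro k
  induction k with
  | zero =>
      intro hk
      refine ra_step (P := dev G L) (q' := iniD (decide (0 ∈ u)))
        (o := some (decide (0 = w.length), decide (0 ∈ u), true, true)) (by simp [dev, unv])
        (by simp only [dev, stp, Set.mem_ofPred_eq]; exact ⟨_, Or.inr rfl⟩) ?_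
      rw [seg_cons hk] at H
      simpa [cel] using H
  | succ k ih =>
      intro hk
      have h1 := ih (by omega)
      have h2 : decide (k = w.length) = false := by simp; omega
      rw [h2, seg_cons hk] at h1
      refine ra_step (P := dev G L) (q' := ini false)
        (o := some (decide (k + 1 = w.length), decide (k + 1 ∈ u), false, false)) (by simp [dev, unv])
        (by simp only [dev, stp, Set.mem_ofPred_eq]; exact ⟨_, Or.inl rfl⟩) ?_
      simpa [cel] using h1

theorem dev_bwd (hL : ∀ B, ∀ r ∈ G.prod B, r.length ≤ L) {w : List T} {z : List (Option T)} {m : ℕ}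
    (H : Cert G w m G.start 0 {w.length})
    (hs : (w.length + 1) * (2 + 2 * L * m) ≤ w.length + z.length) :
    ∃ h, RN (dev G L) h (w.map some ++ none :: z) (ini true) [] := by
  have hs2 : (w.length + 1) * 2 ≤ (w.length + 1) * (2 + 2 * L * m) := Nat.mul_le_mul_left _ (by omega)
  have h1 := ini_bwd (G := G) (L := L) (w := w) (z := w.map some ++ none :: z) (u := {w.length}) (by
    refine ra_all (P := dev G L) (by simp [dev, unv]) ⟨(len, none), by simp [dev, stp]⟩ ?_
    intro q' o hq
    simp only [dev, stp, Set.mem_ofPred_eq, Prod.mk.injEq] at hq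
    rcases hq with ⟨rfl, rfl⟩ | ⟨γ, hγ, rfl, rfl⟩
    · simp only [Option.toList_none, List.nil_append]
      refine len_bwd (x := cel {w.length} {w.length} 0 w.length) (by simp [cel]) w _ ?_ ?_ ?_
      · rw [seg_getElem (by omega), Nat.zero_add]
      · intro j hj
        refine ⟨cel {w.length} {w.length} 0 j, by rw [seg_getElem (by omega), Nat.zero_add], ?_⟩
        simp [cel]; omega
      · rw [seg_length]; omega
    · simp only [Option.toList_none, List.nil_append]
      have h2 := ne_bwd (G := G) hL (w := w) (z := z) m [] (Sum.inl G.start) γ 0 {w.length} {w.length} [] hγ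
        (Nat.zero_le _) ⟨(by intro B hB; cases hB; exact H), (by intro a ha; cases ha), fun j _ hj => hj⟩ (by
          simpa using hs)
      simpa using h2) w.length le_rfl
  rw [seg_nil] at h1
  simpa using h1

theorem padded {V T : Type} [Finite V] [Finite T] (G : ACFG V T) : ∃ (V' : Type) (_ : Finite V') (G' : APSG V' (Option T)),
    G'.Mono ∧ ∃ C : ℕ, ∀ (w : List T) (N : ℕ), C * (w.length + 1) ^ 2 ≤ N →
      (Der G w [Sum.inl G.start] ↔
        DerL G' (List.replicate N (w.map some ++ [none])).flatten [Sum.inl G'.start]) := by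
  classical
  have : Fintype V := Fintype.ofFinite V
  set L : ℕ := max 1 (Finset.univ.sup fun B : V => (G.prod B).sup List.length) with hLd
  have hL : ∀ B, ∀ r ∈ G.prod B, r.length ≤ L := by
    intro B r hr
    have h1 : r.length ≤ (G.prod B).sup List.length := Finset.le_sup hr
    have h2 : (G.prod B).sup List.length ≤ Finset.univ.sup fun B : V => (G.prod B).sup List.length :=
      Finset.le_sup (f := fun B : V => (G.prod B).sup List.length) (Finset.mem_univ B)
    exact h1.trans (h2.trans (le_max_right _ _))
  have hL1 : 1 ≤ L := le_max_left _ _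
  refine ⟨St V T L ⊕ Cell, inferInstance, gram (dev G L), gram_mono _, 3 + 8 * L * Fintype.card V, ?_⟩
  intro w N hN
  have hN1 : 1 ≤ N := by
    have h1 : 1 ≤ (3 + 8 * L * Fintype.card V) * (w.length + 1) ^ 2 := Nat.one_le_iff_ne_zero.mpr (by positivity)
    exact h1.trans hN
  obtain ⟨M, rfl⟩ : ∃ M, N = M + 1 := ⟨N - 1, by omega⟩
  have hW : (List.replicate (M + 1) (w.map some ++ [none])).flatten =
      w.map some ++ none :: (List.replicate M (w.map some ++ [(none : Option T)])).flatten := by
    rw [List.replicate_succ, List.flatten_cons]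
    simp
  rw [hW]
  set z := (List.replicate M (w.map some ++ [(none : Option T)])).flatten with hz
  have hzl : z.length = M * (w.length + 1) := by
    rw [hz, List.length_flatten]
    simp
  have hstart : ([Sum.inl (gram (dev G L)).start] : List ((St V T L ⊕ Cell) ⊕ Option T)) = frm [] (ini true) [] := by
    simp [frm, gram, dev]
  rw [hstart]
  constructor
  · intro H
    obtain ⟨h, hh⟩ := dev_bwd (z := z) hL ((main G w).mp H) (by
      rw [hzl]
      have h1 : Fintype.card V * ((w.length + 1) * (w.length + 4)) ≤ Fintype.card V * (4 * (w.length + 1) ^ 2) := by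
        apply Nat.mul_le_mul_left
        nlinarith
      have h2 : 2 + 2 * L * (Fintype.card V * ((w.length + 1) * (w.length + 4))) ≤ M := by
        have h3 : 2 * L * (Fintype.card V * ((w.length + 1) * (w.length + 4))) ≤
            2 * L * (Fintype.card V * (4 * (w.length + 1) ^ 2)) := Nat.mul_le_mul_left _ h1
        have h4 : (3 + 8 * L * Fintype.card V) * (w.length + 1) ^ 2 =
            3 * (w.length + 1) ^ 2 + 2 * L * (Fintype.card V * (4 * (w.length + 1) ^ 2)) := by ring
        have h5 : 1 ≤ (w.length + 1) ^ 2 := Nat.one_le_pow _ _ (by omega)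
        omega
      have h6 : (w.length + 1) * (2 + 2 * L * (Fintype.card V * ((w.length + 1) * (w.length + 4)))) ≤
          (w.length + 1) * M := Nat.mul_le_mul_left _ h2
      have h7 : (w.length + 1) * M = M * (w.length + 1) := Nat.mul_comm _ _
      omega)
    exact RN_der (dev G L) h [] _ _ _ hh
  · intro H
    obtain ⟨h, hh⟩ := der_RN (dev G L) H [] _ (ini true) [] rfl rfl
    exact dev_fwd hL hL1 hh

end Pool.Agent.H97.LM
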