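import Pool.Agent.H97.LM.Com

/-! Certificates can be chosen of quadratic depth. -/

set_option autoImplicit false
set_option linter.unusedVariables false

namespace Pool.Agent.H97.LM

variable {V T : Type}

/-- last element plus one, zero for the empty set -/
def Jw (v : Finset ℕ) : ℕ := v.sup (· + 1)

/-- the potential -/
def pot (n i : ℕ) (v : Finset ℕ) : ℕ := Jw v * (n + 2) + (Finset.Icc i n \ v).card + (n - i)

theorem lt_Jw {v : Finset ℕ} {x : ℕ} (h : x ∈ v) : x + 1 ≤ Jw v := Finset.le_sup (f := (· + 1)) h

theorem Jw_le {v : Finset ℕ} {b : ℕ} (h : ∀ x ∈ v, x + 1 ≤ b) : Jw v ≤ b := Finset.sup_le h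

theorem exists_Jw {v : Finset ℕ} (h : v.Nonempty) : ∃ x ∈ v, Jw v = x + 1 := by
  obtain ⟨x, hx, h1⟩ := Finset.exists_mem_eq_sup v h (· + 1)
  exact ⟨x, hx, h1⟩

theorem dich {G : ACFG V T} {w : List T} {m i j : ℕ} {v u : Finset ℕ} {γ : List (V ⊕ T)} (hij : i ≤ j)
    (hv : v ⊆ Finset.Icc i w.length) (hu : u ⊆ Finset.Icc j w.length) (hne : u.Nonempty)
    (h : ∀ k, k ∈ Finset.Icc j w.length → (k ∈ u ↔ Str (Cert G w m) w γ k v)) :
    pot w.length j u < pot w.length i v ∨ (j = i ∧ u = v) := by
  obtain ⟨y, hy⟩ := hne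
  have hyI := Finset.mem_Icc.mp (hu hy)
  have hleaf : ∀ k ∈ u, ∃ x ∈ v, k ≤ x := fun k hk =>
    Str_leaf (fun A i v => Cert_leaf m A i v) γ k v ((h k (hu hk)).mp hk)
  have hJ : Jw u ≤ Jw v := Jw_le fun k hk => by
    obtain ⟨x, hx, h1⟩ := hleaf k hk
    have := lt_Jw hx
    omega
  rcases hJ.lt_or_eq with hlt | heq
  · left
    have h1 : (Finset.Icc j w.length \ u).card ≤ w.length + 1 - j := by
      have := Finset.card_le_card (Finset.sdiff_subset (s := Finset.Icc j w.length) (t := u))
      simpa using this
    have h2 : (Jw u + 1) * (w.length + 2) ≤ Jw v * (w.length + 2) := Nat.mul_le_mul_right _ hlt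
    unfold pot
    have h3 : (Jw u + 1) * (w.length + 2) = Jw u * (w.length + 2) + (w.length + 2) := by ring
    omega
  · obtain ⟨M, hM, hM1⟩ := exists_Jw ⟨y, hy⟩
    have hvM : ∀ x ∈ v, x ≤ M := by
      intro x hx
      have := lt_Jw hx
      omega
    have hnull := Str_null (fun A i v => Cert_leaf m A i v)
      (fun A i v hc hx k hk => Cert_null m A i v hc hx k hk) γ M v ((h M (hu hM)).mp hM) hvM
    have hsub : ∀ k ∈ v, j ≤ k → k ∈ u := by
      intro k hk hjk
      have hkI := Finset.mem_Icc.mp (hv hk)
      refine (h k (Finset.mem_Icc.mpr ⟨hjk, hkI.2⟩)).mpr ?_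
      exact Str_vmono (by simpa using hk) γ k (hnull k hkI.2)
    have hsd : Finset.Icc j w.length \ u ⊆ Finset.Icc i w.length \ v := by
      intro x hx
      rw [Finset.mem_sdiff, Finset.mem_Icc] at hx ⊢
      exact ⟨⟨hij.trans hx.1.1, hx.1.2⟩, fun hxv => hx.2 (hsub x hxv hx.1.1)⟩
    rcases hij.lt_or_eq with hlt | rfl
    · left
      have h1 := Finset.card_le_card hsd
      unfold pot
      rw [heq]
      omega
    · by_cases huv : u = v
      · exact Or.inr ⟨rfl, huv⟩
      · left
        have h1 : (Finset.Icc i w.length \ u).card < (Finset.Icc i w.length \ v).card := by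
          apply Finset.card_lt_card
          refine ⟨hsd, fun hback => huv ?_⟩
          apply Finset.Subset.antisymm
          · intro x hx
            by_contra hxv
            have := hback (Finset.mem_sdiff.mpr ⟨hu hx, hxv⟩)
            exact (Finset.mem_sdiff.mp this).2 hx
          · intro x hx
            exact hsub x hx (Finset.mem_Icc.mp (hv hx)).1
        unfold pot
        rw [heq]
        omega

theorem conv {G : ACFG V T} {w : List T} {m m' i : ℕ} {v : Finset ℕ} (hv : v ⊆ Finset.Icc i w.length)
    (hIH : ∀ B j u, u ⊆ Finset.Icc j w.length → pot w.length j u < pot w.length i v → Cert G w m B j u →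
      Cert G w m' B j u)
    (hst : ∀ B, Cert G w m B i v → Cert G w m' B i v) :
    ∀ (γ : List (V ⊕ T)) (j : ℕ), i ≤ j → Str (Cert G w m) w γ j v → Str (Cert G w m') w γ j v
  | [], j => fun _ H => H
  | Sum.inr a :: γ, j => fun hj H => ⟨H.1, conv hv hIH hst γ (j + 1) (by omega) H.2⟩
  | Sum.inl B :: γ, j => fun hj ⟨u, hu, h1, h2⟩ => by
      classical
      set u' : Finset ℕ := (Finset.Icc j w.length).filter fun k => Str (Cert G w m) w γ k v with hu'
      have huu : u ⊆ u' := fun k hk => Finset.mem_filter.mpr ⟨hu hk, h2 k hk⟩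
      have hsub : u' ⊆ Finset.Icc j w.length := Finset.filter_subset _ _
      have h3 : Cert G w m B j u' := Cert_vmono huu m B j h1
      have hne : u'.Nonempty := by
        obtain ⟨x, hx, _⟩ := Cert_leaf m B j u' h3
        exact ⟨x, hx⟩
      refine ⟨u', hsub, ?_, ?_⟩
      · rcases dich (G := G) (m := m) (γ := γ) hj hv hsub hne (fun k hk => by
            rw [hu', Finset.mem_filter]; exact ⟨fun h => h.2, fun h => ⟨hk, h⟩⟩) with h4 | ⟨rfl, h4⟩
        · exact hIH B j u' hsub h4 h3
        · rw [h4] at h3 ⊢
          exact hst B h3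
      · intro k hk
        have hk' := Finset.mem_filter.mp hk
        exact conv hv hIH hst γ k (hj.trans (Finset.mem_Icc.mp hk'.1).1) hk'.2

theorem bound [Fintype V] {G : ACFG V T} {w : List T} : ∀ (p i : ℕ) (v : Finset ℕ), v ⊆ Finset.Icc i w.length →
    pot w.length i v = p → ∀ (A : V) (h : ℕ), Cert G w h A i v → Cert G w (Fintype.card V * (p + 1)) A i v := by
  intro p
  induction p using Nat.strong_induction_on with
  | _ p IH =>
  intro i v hv hp A h hA
  set K := Fintype.card V with hK
  have hIH : ∀ (m m' : ℕ), K * p ≤ m' → ∀ B j u, u ⊆ Finset.Icc j w.length → pot w.length j u < pot w.length i v →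
      Cert G w m B j u → Cert G w m' B j u := by
    intro m m' hm B j u hu hlt hB
    have h1 := IH _ (hp ▸ hlt) j u hu rfl B m hB
    exact Cert_mono ((Nat.mul_le_mul_left K (by omega)).trans hm) h1
  -- a stable stage
  obtain ⟨s, hs, hst⟩ : ∃ s ≤ K, ∀ B, Cert G w (K * p + s + 1) B i v → Cert G w (K * p + s) B i v := by
    by_contra hcon
    push Not at hcon
    have : Nonempty V := ⟨A⟩
    choose! B hB1 hB2 using hcon
    have hinj : Function.Injective fun s : Fin (K + 1) => B s := by
      intro s t hst
      by_contra hne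
      have key : ∀ s t : Fin (K + 1), s < t → B s ≠ B t := by
        intro s t hlt he
        apply hB2 t (Nat.lt_succ_iff.mp t.2)
        rw [← he]
        exact Cert_mono (by have : (s : ℕ) < t := hlt; omega) (hB1 s (Nat.lt_succ_iff.mp s.2))
      rcases lt_or_gt_of_ne hne with h1 | h1
      · exact key s t h1 hst
      · exact key t s h1 hst.symm
    have := Fintype.card_le_of_injective _ hinj
    rw [Fintype.card_fin] at this
    omega
  have hall : ∀ e A, Cert G w (K * p + s + e) A i v → Cert G w (K * p + s) A i v := by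
    intro e
    induction e with
    | zero => exact fun A h => h
    | succ e ih =>
        intro A hA
        apply hst A
        exact Cert_map (conv hv (hIH (K * p + s + e) (K * p + s) (Nat.le_add_right _ _)) ih · i le_rfl) hA
  have h1 : Cert G w (K * p + s + h) A i v := Cert_mono (Nat.le_add_left _ _) hA
  exact Cert_mono (by rw [mul_add, mul_one]; omega) (hall h A h1)

theorem main [Fintype V] (G : ACFG V T) (w : List T) :
    Der G w [Sum.inl G.start] ↔
      Cert G w (Fintype.card V * ((w.length + 1) * (w.length + 4))) G.start 0 {w.length} := by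
  constructor
  · intro H
    obtain ⟨m, hm⟩ := H.cert
    refine Cert_mono (Nat.mul_le_mul_left _ ?_) (bound _ 0 {w.length} (by simp) rfl _ m hm)
    have h1 : (Finset.Icc 0 w.length \ {w.length}).card ≤ w.length := by
      rw [Finset.card_sdiff_of_subset (by simp)]
      simp
    have h2 : Jw {w.length} = w.length + 1 := by simp [Jw]
    unfold pot
    rw [h2]
    have h3 : (w.length + 1) * (w.length + 4) = (w.length + 1) * (w.length + 2) + 2 * w.length + 2 := by ring
    omega
  · exact Cert.der

end Pool.Agent.H97.LM
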